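import Pool.Agent.H585R4.JT.Fuse3
import Pool.Agent.H108R4.JT585.Prim
import Pool.Agent.H973R3.JT.C1
import Pool.Agent.H973R3.JT.D
import Pool.Agent.H511R3.JT.C2

set_option autoImplicit false
open Filter Topology Finset
open scoped ENNReal

namespace Pool.Agent.H585R4.JT

variable {𝕜 : Type} [RCLike 𝕜]

theorem infdim : ¬ FiniteDimensional 𝕜 (V 𝕜) := by
  intro h
  let x : ℕ → V 𝕜 := fun n => ee (List.replicate (n + 1) false)
  let g : ℕ → (V 𝕜 →L[𝕜] 𝕜) := fun n => ev (List.replicate (n + 1) false) - ev (List.replicate n false)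
  have hgx : ∀ n m, g n (x m) = if n = m then 1 else 0 := by
    intro n m
    show ev (List.replicate (n + 1) false) (ee (List.replicate (m + 1) false) : V 𝕜)
      - ev (List.replicate n false) (ee (List.replicate (m + 1) false) : V 𝕜) = _
    rw [ev_ee, ev_ee]
    have hs : ∀ a b : ℕ, (List.replicate a false <:+ List.replicate b false) ↔ a ≤ b := by
      intro a b
      constructor
      · intro h
        have := h.length_le
        simpa using this
      · intro h
        refine ⟨List.replicate (b - a) false, ?_⟩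
        rw [List.replicate_append_replicate]
        congr 1
        omega
    have hne : List.replicate (m + 1) false ≠ [] := by simp
    by_cases h1 : n = m
    · subst h1
      rw [if_pos ⟨(hs _ _).2 le_rfl, hne⟩, if_neg (fun h => by have := (hs _ _).1 h.1; omega), if_pos rfl, sub_zero]
    · rw [if_neg h1]
      by_cases h2 : m + 1 ≤ n
      · rw [if_pos ⟨(hs _ _).2 (by omega), hne⟩, if_pos ⟨(hs _ _).2 h2, hne⟩, sub_self]
      · rw [if_neg (fun h => by have := (hs _ _).1 h.1; omega), if_neg (fun h => by have := (hs _ _).1 h.1; omega), sub_self]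
  have hli : LinearIndependent 𝕜 x := by
    rw [linearIndependent_iff']
    intro s c hc i hi
    have h1 := congrArg (g i) hc
    rw [map_sum, map_zero] at h1
    have h2 : ∀ j ∈ s, g i (c j • x j) = if i = j then c j else 0 := by
      intro j _
      rw [map_smul, hgx, smul_eq_mul]
      split_ifs
      · rw [mul_one]
      · rw [mul_zero]
    rw [Finset.sum_congr rfl h2, Finset.sum_ite_eq, if_pos hi] at h1
    exact h1
  have := hli.finite
  exact not_finite ℕ

theorem V_primary (𝕜 : Type) [RCLike 𝕜] : IsPrimary 𝕜 (V 𝕜) := by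
  obtain ⟨J, Q, hQJ⟩ := Pool.Agent.H973R3.JT.taskD 𝕜
  exact Pool.Agent.H108R4.JT585.isPrimary_of_factor 𝕜 (V 𝕜) infdim J Q hQJ taskF

/-- Assembly: some primary space has a non-primary dual. -/
theorem assembly (hE : TaskE 𝕜) : ∃ (X : Type) (_ : NormedAddCommGroup X) (_ : NormedSpace 𝕜 X),
    CompleteSpace X ∧ IsPrimary 𝕜 X ∧ ¬ IsPrimary 𝕜 (StrongDual 𝕜 X) := by
  have hbid := hE (Pool.Agent.H973R3.JT.taskC1 𝕜) Pool.Agent.H511R3.JT.taskC2
  by_cases h : IsPrimary 𝕜 (StrongDual 𝕜 (V 𝕜))
  · exact ⟨StrongDual 𝕜 (V 𝕜), inferInstance, inferInstance, inferInstance, h, hbid⟩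
  · exact ⟨V 𝕜, inferInstance, inferInstance, inferInstance, V_primary 𝕜, h⟩

end Pool.Agent.H585R4.JT
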