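import Pool.Agent.H585R4.JT.Stmts

set_option autoImplicit false
open Filter Topology Finset
open scoped ENNReal

namespace Pool.Agent.H585R4.JT

variable {𝕜 : Type} [RCLike 𝕜]

theorem inn_ne_nil {t : Nd} {p : Nd × Nd} (h : Inn t p) : t ≠ [] := by
  rintro rfl
  have h1 := h.1
  rw [List.suffix_nil] at h1
  exact h.2.1 h1.symm

theorem card_le_one_sum (S : Finset Nd) (hS : S.card ≤ 1) (c : Nd → 𝕜) :
    ‖∑ s ∈ S, c s‖ ^ 2 ≤ ∑ s ∈ S, ‖c s‖ ^ 2 := by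
  rcases Finset.card_le_one_iff_subset_singleton.1 hS with ⟨x, hx⟩
  rcases Finset.subset_singleton_iff.1 hx with h | h
  · simp [h]
  · simp [h]

/-- upper 2-estimate for basis vectors of an antichain -/
theorem norm_sum_ee (S : Finset Nd) (hS : ∀ s ∈ S, ∀ s' ∈ S, s ≠ s' → ¬ s <:+ s') (c : Nd → 𝕜) :
    ‖∑ s ∈ S, c s • (ee s : V 𝕜)‖ ^ 2 ≤ ∑ s ∈ S, ‖c s‖ ^ 2 := by
  classical
  have h0 : 0 ≤ ∑ s ∈ S, ‖c s‖ ^ 2 := Finset.sum_nonneg fun _ _ => by positivity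
  have h1 : ‖∑ s ∈ S, c s • (ee s : V 𝕜)‖ ≤ Real.sqrt (∑ s ∈ S, ‖c s‖ ^ 2) := by
    apply norm_le (Real.sqrt_nonneg _)
    intro F hF
    rw [Real.sq_sqrt h0]
    have key : ∀ p ∈ F, ‖ev p.2 (∑ s ∈ S, c s • (ee s : V 𝕜)) - ev p.1 (∑ s ∈ S, c s • (ee s : V 𝕜))‖ ^ 2
        ≤ ∑ s ∈ S, (if Inn s p then ‖c s‖ ^ 2 else 0) := by
      intro p hp
      have hab := hF.1 p hp
      rw [map_sum, map_sum, ← Finset.sum_sub_distrib]
      have h2 : ∀ s ∈ S, ev p.2 (c s • (ee s : V 𝕜)) - ev p.1 (c s • (ee s : V 𝕜))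
          = if Inn s p then c s else 0 := by
        intro s _
        rw [map_smul, map_smul, ev_ee, ev_ee, smul_eq_mul, smul_eq_mul]
        by_cases hi : Inn s p
        · have hs := inn_ne_nil hi
          have h3 : ¬ s <:+ p.1 := by
            intro h
            exact hi.2.1 (h.eq_of_length (le_antisymm h.length_le hi.1.length_le))
          rw [if_pos ⟨hi.2.2, hs⟩, if_neg (fun h => h3 h.1), if_pos hi]
          ring
        · rw [if_neg hi]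
          by_cases h4 : s <:+ p.1 ∧ s ≠ []
          · rw [if_pos h4, if_pos ⟨h4.1.trans hab, h4.2⟩]
            ring
          · rw [if_neg h4]
            have h5 : ¬ (s <:+ p.2 ∧ s ≠ []) := by
              rintro ⟨h5, h6⟩
              have h7 : ¬ s <:+ p.1 := fun h => h4 ⟨h, h6⟩
              apply hi
              rcases suffix_total hab h5 with h | h
              · exact ⟨h, fun h' => h7 (h' ▸ List.suffix_refl _), h5⟩
              · exact absurd h h7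
            rw [if_neg h5]
            ring
      rw [Finset.sum_congr rfl h2, ← Finset.sum_filter, ← Finset.sum_filter]
      apply card_le_one_sum
      rw [Finset.card_le_one]
      intro s hs s' hs'
      rw [Finset.mem_filter] at hs hs'
      by_contra hne
      rcases suffix_total hs.2.2.2 hs'.2.2.2 with h | h
      · exact hS s hs.1 s' hs'.1 hne h
      · exact hS s' hs'.1 s hs.1 (fun h' => hne h'.symm) h
    refine (Finset.sum_le_sum key).trans ?_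
    rw [Finset.sum_comm]
    apply Finset.sum_le_sum
    intro s _
    rw [← Finset.sum_filter, Finset.sum_const, nsmul_eq_mul]
    have hc : (F.filter (fun p => Inn s p)).card ≤ 1 := by
      rw [Finset.card_le_one]
      intro p hp q hq
      by_contra hne
      rw [Finset.mem_filter] at hp hq
      exact hF.2 p hp.1 q hq.1 hne s ⟨hp.2, hq.2⟩
    have h6 : ((F.filter (fun p => Inn s p)).card : ℝ) ≤ 1 := by exact_mod_cast hc
    have h7 : 0 ≤ ‖c s‖ ^ 2 := by positivity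
    nlinarith
  calc ‖∑ s ∈ S, c s • (ee s : V 𝕜)‖ ^ 2 ≤ (Real.sqrt (∑ s ∈ S, ‖c s‖ ^ 2)) ^ 2 :=
        pow_le_pow_left₀ (norm_nonneg _) h1 2
    _ = _ := Real.sq_sqrt h0

/-- Bessel inequality for functionals on antichains -/
theorem bessel (g : V 𝕜 →L[𝕜] 𝕜) (S : Finset Nd) (hS : ∀ s ∈ S, ∀ s' ∈ S, s ≠ s' → ¬ s <:+ s') :
    ∑ s ∈ S, ‖g (ee s)‖ ^ 2 ≤ ‖g‖ ^ 2 := by
  set A := ∑ s ∈ S, ‖g (ee s)‖ ^ 2 with hA
  have hA0 : 0 ≤ A := Finset.sum_nonneg fun _ _ => by positivity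
  set x : V 𝕜 := ∑ s ∈ S, (starRingEnd 𝕜 (g (ee s))) • (ee s : V 𝕜) with hx
  have h1 : ‖x‖ ^ 2 ≤ A := by
    refine (norm_sum_ee S hS _).trans (le_of_eq ?_)
    apply Finset.sum_congr rfl
    intro s _
    rw [RCLike.norm_conj]
  have h2 : g x = ((A : ℝ) : 𝕜) := by
    rw [hx, map_sum, hA]
    push_cast
    apply Finset.sum_congr rfl
    intro s _
    rw [map_smul, smul_eq_mul, RCLike.conj_mul]
  have h3 : A ≤ ‖g‖ * ‖x‖ := by
    have h4 := g.le_opNorm x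
    rw [h2, RCLike.norm_ofReal, abs_of_nonneg hA0] at h4
    exact h4
  have h5 : A ^ 2 ≤ ‖g‖ ^ 2 * A := by
    calc A ^ 2 ≤ (‖g‖ * ‖x‖) ^ 2 := pow_le_pow_left₀ hA0 h3 2
      _ = ‖g‖ ^ 2 * ‖x‖ ^ 2 := by ring
      _ ≤ ‖g‖ ^ 2 * A := mul_le_mul_of_nonneg_left h1 (by positivity)
  rcases eq_or_lt_of_le hA0 with h6 | h6
  · rw [← h6]
    positivity
  · have : A * A ≤ ‖g‖ ^ 2 * A := by nlinarith
    exact le_of_mul_le_mul_right this h6

theorem lev_append_anti (k : ℕ) (q : Nd) : ∀ s ∈ (lev k).image (fun v => v ++ q),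
    ∀ s' ∈ (lev k).image (fun v => v ++ q), s ≠ s' → ¬ s <:+ s' := by
  intro s hs s' hs' hne h
  rw [Finset.mem_image] at hs hs'
  obtain ⟨v, hv, rfl⟩ := hs
  obtain ⟨v', hv', rfl⟩ := hs'
  rw [mem_lev] at hv hv'
  apply hne
  apply h.eq_of_length
  simp [hv, hv']

theorem sum_lev_append (k : ℕ) (q : Nd) (f : Nd → ℝ) :
    ∑ s ∈ (lev k).image (fun v => v ++ q), f s = ∑ v ∈ lev k, f (v ++ q) := by
  rw [Finset.sum_image]
  intro v _ v' _ h
  exact List.append_cancel_right h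

/-- finitely many functionals are small at some basis vector below any node -/
theorem thin (G : Finset (V 𝕜 →L[𝕜] 𝕜)) (q : Nd) {ε : ℝ} (hε : 0 < ε) :
    ∃ p : Nd, q <:+ p ∧ p ≠ [] ∧ ∀ g ∈ G, ‖g (ee p)‖ ≤ ε := by
  classical
  by_contra hc
  push Not at hc
  obtain ⟨k, hk⟩ : ∃ k : ℕ, (∑ g ∈ G, ‖g‖ ^ 2) / ε ^ 2 < 2 ^ (k + 1) := by
    obtain ⟨k, hk⟩ := pow_unbounded_of_one_lt ((∑ g ∈ G, ‖g‖ ^ 2) / ε ^ 2) (one_lt_two)
    exact ⟨k, hk.trans_le (pow_le_pow_right₀ one_le_two (Nat.le_succ k))⟩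
  have h1 : ∀ v ∈ lev (k + 1), ε ^ 2 ≤ ∑ g ∈ G, ‖g (ee (v ++ q))‖ ^ 2 := by
    intro v hv
    rw [mem_lev] at hv
    obtain ⟨g, hg, h⟩ := hc (v ++ q) (List.suffix_append _ _) (by
      intro h
      have := congrArg List.length h
      simp [hv] at this)
    refine le_trans ?_ (Finset.single_le_sum (f := fun g : V 𝕜 →L[𝕜] 𝕜 => ‖g (ee (v ++ q))‖ ^ 2)
      (fun _ _ => by positivity) hg)
    exact pow_le_pow_left₀ hε.le h.le 2
  have h2 : (2 : ℝ) ^ (k + 1) * ε ^ 2 ≤ ∑ g ∈ G, ‖g‖ ^ 2 := by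
    calc (2 : ℝ) ^ (k + 1) * ε ^ 2 = ∑ v ∈ lev (k + 1), ε ^ 2 := by
          rw [Finset.sum_const, card_lev, nsmul_eq_mul]
          push_cast
          ring
      _ ≤ ∑ v ∈ lev (k + 1), ∑ g ∈ G, ‖g (ee (v ++ q))‖ ^ 2 := Finset.sum_le_sum h1
      _ = ∑ g ∈ G, ∑ v ∈ lev (k + 1), ‖g (ee (v ++ q))‖ ^ 2 := Finset.sum_comm
      _ ≤ ∑ g ∈ G, ‖g‖ ^ 2 := by
          apply Finset.sum_le_sum
          intro g _
          rw [← sum_lev_append (k + 1) q (fun s => ‖g (ee s)‖ ^ 2)]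
          exact bessel g _ (lev_append_anti _ _)
  rw [div_lt_iff₀ (by positivity)] at hk
  linarith

theorem RR_RR {s u : Nd} (h : s <:+ u) (x : V 𝕜) : RR u (RR s x) = RR u x := by
  apply ext_ev
  intro t
  rw [ev_RR, ev_RR, ev_RR, ev_RR]
  by_cases h1 : u <:+ t
  · rw [if_pos h1, if_pos (h.trans h1), if_pos h, if_pos h1]
    ring
  · rw [if_neg h1, if_neg h1]

theorem RR_anti {s u : Nd} (h : s <:+ u) (x : V 𝕜) : ‖RR u x‖ ≤ ‖RR s x‖ := by
  rw [← RR_RR h]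
  exact RR_le _ _

theorem ev_sub_RR {s u : Nd} (h : s <:+ u) (x : V 𝕜) : ‖ev u x - ev s x‖ ≤ ‖RR s x‖ := by
  have h1 := ev_le (RR s x) u
  rwa [ev_RR, if_pos h] at h1

/-- the cone part is dominated by the tail -/
theorem RR_le_QQ {s : Nd} {n : ℕ} (h : n ≤ s.length) (x : V 𝕜) : ‖RR s x‖ ≤ ‖QQ n x‖ := by
  have : RR s x = RR s (QQ n x) := by
    apply ext_ev
    intro t
    rw [ev_RR, ev_RR, ev_QQ, ev_QQ]
    by_cases h1 : s <:+ t
    · rw [if_pos h1, if_pos h1, tr_eq_of_suffix h1 h]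
      ring
    · rw [if_neg h1, if_neg h1]
  rw [this]
  exact RR_le _ _

theorem exists_deep (x : V 𝕜) (q : Nd) {ε : ℝ} (hε : 0 < ε) : ∃ b, q <:+ b ∧ ‖RR b x‖ ≤ ε := by
  obtain ⟨N, hN⟩ := tendsto_QQ x hε
  refine ⟨List.replicate N false ++ q, List.suffix_append _ _, ?_⟩
  refine (RR_le_QQ (n := N) ?_ x).trans (hN N le_rfl)
  simp

/-- pigeonhole for cones -/
theorem exists_small_cone (x : V 𝕜) (q : Nd) (k : ℕ) {η : ℝ} (hη : 0 < η) (hk : ‖x‖ ^ 2 ≤ 2 ^ k * η ^ 2) :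
    ∃ v ∈ lev k, ‖RR (v ++ q) x‖ ≤ η := by
  by_contra hc
  push Not at hc
  have h1 : ∑ v ∈ lev k, ‖RR (v ++ q) x‖ ^ 2 ≤ ‖x‖ ^ 2 := by
    rw [← sum_lev_append k q (fun s => ‖RR s x‖ ^ 2)]
    exact sum_RR_le _ (lev_append_anti _ _) x
  have h2 : (2 : ℝ) ^ k * η ^ 2 < ∑ v ∈ lev k, ‖RR (v ++ q) x‖ ^ 2 := by
    calc (2 : ℝ) ^ k * η ^ 2 = ∑ v ∈ lev k, η ^ 2 := by
          rw [Finset.sum_const, card_lev, nsmul_eq_mul]
          push_cast
          ring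
      _ < _ := by
          apply Finset.sum_lt_sum_of_nonempty
          · rw [← Finset.card_pos, card_lev]
            positivity
          · intro v hv
            exact pow_lt_pow_left₀ (hc v hv) hη.le two_ne_zero
  linarith

/-! ### cluster values -/

/-- cluster values of `T` below the node `q` -/
def KK (T : V 𝕜 →L[𝕜] V 𝕜) (q : Nd) : Set 𝕜 :=
  {a | ∀ ε > 0, ∀ G : Finset (V 𝕜 →L[𝕜] 𝕜), ∃ p b : Nd, q <:+ p ∧ p <:+ b ∧ p ≠ [] ∧
     ‖ev b (T (ee p)) - a‖ ≤ ε ∧ ‖RR b (T (ee p))‖ ≤ ε ∧ ∀ g ∈ G, ‖g (ee p)‖ ≤ ε}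

theorem KK_anti (T : V 𝕜 →L[𝕜] V 𝕜) {q q' : Nd} (h : q <:+ q') : KK T q' ⊆ KK T q := by
  intro a ha ε hε G
  obtain ⟨p, b, h1, h2⟩ := ha ε hε G
  exact ⟨p, b, h.trans h1, h2⟩

theorem norm_T_ee (T : V 𝕜 →L[𝕜] V 𝕜) (p : Nd) : ‖T (ee p)‖ ≤ ‖T‖ := by
  calc ‖T (ee p)‖ ≤ ‖T‖ * ‖(ee p : V 𝕜)‖ := T.le_opNorm _
    _ ≤ ‖T‖ * 1 := mul_le_mul_of_nonneg_left (ee_le p) (norm_nonneg _)
    _ = ‖T‖ := mul_one _

theorem KK_nonempty (T : V 𝕜 →L[𝕜] V 𝕜) (q : Nd) : (KK T q).Nonempty := by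
  classical
  let A : ℕ × Finset (V 𝕜 →L[𝕜] 𝕜) → Set 𝕜 := fun z =>
    closure {w | ∃ p b : Nd, q <:+ p ∧ p <:+ b ∧ p ≠ [] ∧ w = ev b (T (ee p)) ∧
      ‖RR b (T (ee p))‖ ≤ 1 / ((z.1 : ℝ) + 1) ∧ ∀ g ∈ z.2, ‖g (ee p)‖ ≤ 1 / ((z.1 : ℝ) + 1)}
  have hsub : ∀ z, A z ⊆ Metric.closedBall 0 ‖T‖ := by
    intro z
    apply closure_minimal _ Metric.isClosed_closedBall
    rintro w ⟨p, b, -, -, -, rfl, -⟩
    rw [mem_closedBall_zero_iff]
    exact (ev_le _ _).trans (norm_T_ee T p)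
  have hne : ∀ z, (A z).Nonempty := by
    intro z
    have hε : (0 : ℝ) < 1 / ((z.1 : ℝ) + 1) := by positivity
    obtain ⟨p, h1, h2, h3⟩ := thin z.2 q hε
    obtain ⟨b, h4, h5⟩ := exists_deep (T (ee p)) p hε
    exact ⟨ev b (T (ee p)), subset_closure ⟨p, b, h1, h4, h2, rfl, h5, h3⟩⟩
  have hdir : Directed (· ⊇ ·) A := by
    intro z z'
    refine ⟨(max z.1 z'.1, z.2 ∪ z'.2), ?_, ?_⟩
    · apply closure_mono
      rintro w ⟨p, b, h1, h2, h3, h4, h5, h6⟩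
      have h7 : 1 / (((max z.1 z'.1 : ℕ) : ℝ) + 1) ≤ 1 / ((z.1 : ℝ) + 1) := by
        apply one_div_le_one_div_of_le (by positivity)
        have : (z.1 : ℝ) ≤ ((max z.1 z'.1 : ℕ) : ℝ) := by exact_mod_cast le_max_left _ _
        linarith
      exact ⟨p, b, h1, h2, h3, h4, h5.trans h7, fun g hg => (h6 g (Finset.mem_union_left _ hg)).trans h7⟩
    · apply closure_mono
      rintro w ⟨p, b, h1, h2, h3, h4, h5, h6⟩
      have h7 : 1 / (((max z.1 z'.1 : ℕ) : ℝ) + 1) ≤ 1 / ((z'.1 : ℝ) + 1) := by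
        apply one_div_le_one_div_of_le (by positivity)
        have : (z'.1 : ℝ) ≤ ((max z.1 z'.1 : ℕ) : ℝ) := by exact_mod_cast le_max_right _ _
        linarith
      exact ⟨p, b, h1, h2, h3, h4, h5.trans h7, fun g hg => (h6 g (Finset.mem_union_right _ hg)).trans h7⟩
  obtain ⟨a, ha⟩ := IsCompact.nonempty_iInter_of_directed_nonempty_isCompact_isClosed A hdir hne
    (fun z => (isCompact_closedBall (0 : 𝕜) ‖T‖).of_isClosed_subset isClosed_closure (hsub z))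
    (fun z => isClosed_closure)
  refine ⟨a, fun ε hε G => ?_⟩
  obtain ⟨n, hn⟩ := exists_nat_one_div_lt hε
  have h1 := Set.mem_iInter.1 ha (n, G)
  rw [Metric.mem_closure_iff] at h1
  obtain ⟨w, ⟨p, b, h2, h3, h4, h5, h6, h7⟩, h8⟩ := h1 ε hε
  refine ⟨p, b, h2, h3, h4, ?_, h6.trans hn.le, fun g hg => (h7 g hg).trans hn.le⟩
  rw [← h5, ← dist_eq_norm, dist_comm]
  exact h8.le

theorem KK_sub (T : V 𝕜 →L[𝕜] V 𝕜) (q : Nd) : KK T q ⊆ Metric.closedBall 0 ‖T‖ := by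
  intro a ha
  rw [mem_closedBall_zero_iff]
  apply le_of_forall_pos_le_add
  intro ε hε
  obtain ⟨p, b, -, -, -, h, -⟩ := ha ε hε ∅
  have h1 : ‖ev b (T (ee p))‖ ≤ ‖T‖ := (ev_le _ _).trans (norm_T_ee T p)
  have h2 : ‖a‖ ≤ ‖ev b (T (ee p))‖ + ‖ev b (T (ee p)) - a‖ := by
    have := norm_sub_le (ev b (T (ee p))) (ev b (T (ee p)) - a)
    simpa using this
  linarith

/-- stability -/
def Stab (T : V 𝕜 →L[𝕜] V 𝕜) (q : Nd) (I : Set 𝕜) : Prop := ∀ q', q <:+ q' → (KK T q' ∩ I).Nonempty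

theorem Stab.mono {T : V 𝕜 →L[𝕜] V 𝕜} {q q' : Nd} {I J : Set 𝕜} (h : Stab T q I) (hq : q <:+ q')
    (hI : I ⊆ J) : Stab T q' J := by
  intro u hu
  obtain ⟨a, ha, hb⟩ := h u (hq.trans hu)
  exact ⟨a, ha, hI hb⟩

theorem stab_refine {T : V 𝕜 →L[𝕜] V 𝕜} {q : Nd} {I : Set 𝕜} (h : Stab T q I) {ε : ℝ} (hε : 0 < ε) :
    ∃ (q₁ : Nd) (a : 𝕜), q <:+ q₁ ∧ Stab T q₁ (I ∩ Metric.closedBall a ε) := by
  classical
  obtain ⟨t, -, ht, hcov⟩ := (isCompact_closedBall (0 : 𝕜) ‖T‖).finite_cover_balls hε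
  lift t to Finset 𝕜 using ht
  let N : Nd → Finset 𝕜 := fun u => t.filter (fun x => (KK T u ∩ (I ∩ Metric.closedBall x ε)).Nonempty)
  have hanti : ∀ u u', u <:+ u' → N u' ⊆ N u := by
    intro u u' huu x hx
    rw [Finset.mem_filter] at hx ⊢
    refine ⟨hx.1, ?_⟩
    obtain ⟨a, ha, hb⟩ := hx.2
    exact ⟨a, KK_anti T huu ha, hb⟩
  have hex : ∃ n, ∃ u, q <:+ u ∧ (N u).card = n := ⟨_, q, List.suffix_refl q, rfl⟩
  obtain ⟨q₁, hq₁, hcard⟩ := Nat.find_spec hex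
  have hmin : ∀ u, q₁ <:+ u → N u = N q₁ := by
    intro u hu
    apply Finset.eq_of_subset_of_card_le (hanti q₁ u hu)
    rw [hcard]
    exact Nat.find_min' hex ⟨u, hq₁.trans hu, rfl⟩
  obtain ⟨z, hz1, hz2⟩ := h q₁ hq₁
  obtain ⟨x, hx, hxz⟩ : ∃ x ∈ t, z ∈ Metric.ball x ε := by
    have := hcov (KK_sub T q₁ hz1)
    simpa using this
  have hx1 : x ∈ N q₁ := by
    rw [Finset.mem_filter]
    exact ⟨hx, z, hz1, hz2, Metric.ball_subset_closedBall hxz⟩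
  refine ⟨q₁, x, hq₁, fun u hu => ?_⟩
  have : x ∈ N u := by
    rw [hmin u hu]
    exact hx1
  exact (Finset.mem_filter.1 this).2

/-- one level of the fusion -/
theorem level (T : V 𝕜 →L[𝕜] V 𝕜) (G : Finset (V 𝕜 →L[𝕜] 𝕜)) {η : ℝ} (hη : 0 < η) (S : Finset Nd)
    (r : Nd → Nd) (I : Nd → Set 𝕜) (hst : ∀ s ∈ S, Stab T (r s) (I s)) (D : Finset Nd) :
    D ⊆ S → ∃ (r' p : Nd → Nd) (α : Nd → 𝕜), (∀ s, r s <:+ r' s) ∧ ∀ s ∈ D, α s ∈ I s ∧ r s <:+ p s ∧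
      p s ≠ [] ∧ p s <:+ r' s ∧ (∀ g ∈ G, ‖g (ee (p s))‖ ≤ η) ∧
      (∀ u, r' s <:+ u → ‖ev u (T (ee (p s))) - α s‖ ≤ 2 * η ∧ ‖RR u (T (ee (p s)))‖ ≤ η) ∧
      (∀ s' ∈ S, s' ≠ s → ∀ u, r' s' <:+ u → ‖ev u (T (ee (p s)))‖ ≤ 2 * η ∧ ‖RR u (T (ee (p s)))‖ ≤ η) := by
  classical
  induction D using Finset.induction_on with
  | empty =>
    intro _
    exact ⟨r, r, fun _ => 0, fun s => List.suffix_refl _, fun s hs => absurd hs (Finset.notMem_empty s)⟩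
  | insert s₀ D' hs₀ ih =>
    intro hD
    obtain ⟨r', p, α, hr, hprop⟩ := ih (fun s hs => hD (Finset.mem_insert_of_mem hs))
    have hs₀S : s₀ ∈ S := hD (Finset.mem_insert_self _ _)
    obtain ⟨α₀, hα1, hα2⟩ := hst s₀ hs₀S (r' s₀) (hr s₀)
    obtain ⟨k, hk⟩ := pow_unbounded_of_one_lt (‖T‖ ^ 2 / η ^ 2) (one_lt_two)
    rw [div_lt_iff₀ (by positivity)] at hk
    obtain ⟨p₀, b, h1, h2, h3, h4, h5, h6⟩ := hα1 η hη
      (G ∪ (S ×ˢ lev k).image (fun z => (ev (z.2 ++ r' z.1)).comp T))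
    have hyn : ‖T (ee p₀)‖ ^ 2 ≤ 2 ^ k * η ^ 2 :=
      (pow_le_pow_left₀ (norm_nonneg _) (norm_T_ee T p₀) 2).trans hk.le
    have hv : ∀ s', ∃ v ∈ lev k, ‖RR (v ++ r' s') (T (ee p₀))‖ ≤ η := fun s' =>
      exists_small_cone (T (ee p₀)) (r' s') k hη hyn
    choose v hv1 hv2 using hv
    refine ⟨fun s => if s = s₀ then b else if s ∈ S then v s ++ r' s else r' s,
      fun s => if s = s₀ then p₀ else p s, fun s => if s = s₀ then α₀ else α s, ?_, ?_⟩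
    · intro s
      show r s <:+ (if s = s₀ then b else if s ∈ S then v s ++ r' s else r' s)
      by_cases hs : s = s₀
      · rw [if_pos hs, hs]
        exact ((hr s₀).trans h1).trans h2
      · rw [if_neg hs]
        split_ifs
        · exact (hr s).trans (List.suffix_append _ _)
        · exact hr s
    · have hr'' : ∀ s, r' s <:+ (if s = s₀ then b else if s ∈ S then v s ++ r' s else r' s) := by
        intro s
        by_cases hs : s = s₀
        · rw [if_pos hs, hs]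
          exact h1.trans h2
        · rw [if_neg hs]
          split_ifs
          · exact List.suffix_append _ _
          · exact List.suffix_refl _
      intro s hs
      by_cases hss : s = s₀
      · subst hss
        simp only [if_true]
        refine ⟨hα2, (hr s).trans h1, h3, h2, fun g hg => h6 g (Finset.mem_union_left _ hg), ?_, ?_⟩
        · intro u hu
          refine ⟨?_, (RR_anti hu _).trans h5⟩
          have h7 := ev_sub_RR hu (T (ee p₀))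
          have h8 : ev u (T (ee p₀)) - α₀ = (ev u (T (ee p₀)) - ev b (T (ee p₀))) + (ev b (T (ee p₀)) - α₀) := by
            ring
          rw [h8]
          refine (norm_add_le _ _).trans ?_
          linarith
        · intro s' hs' hne u hu
          rw [if_neg hne, if_pos hs'] at hu
          refine ⟨?_, (RR_anti hu _).trans (hv2 s')⟩
          have h7 := (ev_sub_RR hu (T (ee p₀))).trans (hv2 s')
          have h8 : ‖ev (v s' ++ r' s') (T (ee p₀))‖ ≤ η :=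
            h6 ((ev (v s' ++ r' s')).comp T) (Finset.mem_union_right _ (Finset.mem_image.2
              ⟨(s', v s'), Finset.mem_product.2 ⟨hs', hv1 s'⟩, rfl⟩))
          have h9 : ev u (T (ee p₀)) = (ev u (T (ee p₀)) - ev (v s' ++ r' s') (T (ee p₀)))
              + ev (v s' ++ r' s') (T (ee p₀)) := by ring
          rw [h9]
          refine (norm_add_le _ _).trans ?_
          linarith
      · have hsD : s ∈ D' := by
          rcases Finset.mem_insert.1 hs with h | h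
          · exact absurd h hss
          · exact h
        obtain ⟨g1, g2, g3, g4, g5, g6, g7⟩ := hprop s hsD
        simp only [if_neg hss]
        refine ⟨g1, g2, g3, ?_, g5, ?_, ?_⟩
        · have := hr'' s
          rw [if_neg hss] at this
          exact g4.trans this
        · intro u hu
          have := hr'' s
          rw [if_neg hss] at this
          exact g6 u (this.trans hu)
        · intro s' hs' hne u hu
          exact g7 s' hs' hne u ((hr'' s').trans hu)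

end Pool.Agent.H585R4.JT
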