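import Pool.Agent.H585R4.JT.Fuse1

set_option autoImplicit false
open Filter Topology Finset
open scoped ENNReal

namespace Pool.Agent.H585R4.JT

variable {𝕜 : Type} [RCLike 𝕜]

/-- the state of the fusion -/
structure St (𝕜 : Type) where
  b : Nd → Nd
  p : Nd → Nd
  a : Nd → 𝕜
  U : Finset Nd

def Good (T : V 𝕜 →L[𝕜] V 𝕜) (ε : ℕ → ℝ) (l : ℕ) (st : St 𝕜) : Prop :=
  ∀ s : Nd, s.length = l → Stab T (st.b s) (Metric.closedBall (st.a s) (ε l))

structure Next (T : V 𝕜 →L[𝕜] V 𝕜) (ε : ℕ → ℝ) (l : ℕ) (st st' : St 𝕜) : Prop where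
  sub : st.U ⊆ st'.U
  mem : ∀ s : Nd, s.length = l + 1 → st'.b s ∈ st'.U
  emb1 : ∀ (i : Bool) (s : Nd), s.length = l → (i :: st.b s) <:+ st'.p (i :: s)
  emb2 : ∀ (i : Bool) (s : Nd), s.length = l → st'.p (i :: s) <:+ st'.b (i :: s)
  cen : ∀ (i : Bool) (s : Nd), s.length = l → ‖st'.a (i :: s) - st.a s‖ ≤ ε l + ε (l + 1)
  old : ∀ s : Nd, s.length = l + 1 → ∀ u ∈ st.U, ‖ev u (T (ee (st'.p s)))‖ ≤ ε (l + 1)
  dia : ∀ s : Nd, s.length = l + 1 → ∀ u, st'.b s <:+ u →
    ‖ev u (T (ee (st'.p s))) - st'.a s‖ ≤ 3 * ε (l + 1) ∧ ‖RR u (T (ee (st'.p s)))‖ ≤ ε (l + 1)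
  off : ∀ s : Nd, s.length = l + 1 → ∀ s' : Nd, s'.length = l + 1 → s' ≠ s → ∀ u, st'.b s' <:+ u →
    ‖ev u (T (ee (st'.p s)))‖ ≤ 2 * ε (l + 1) ∧ ‖RR u (T (ee (st'.p s)))‖ ≤ ε (l + 1)

theorem step (T : V 𝕜 →L[𝕜] V 𝕜) (ε : ℕ → ℝ) (hε : ∀ n, 0 < ε n) (l : ℕ) (st : St 𝕜)
    (hg : Good T ε l st) : ∃ st' : St 𝕜, Good T ε (l + 1) st' ∧ Next T ε l st st' := by
  classical
  have h1 : ∀ s : Nd, ∃ (q : Nd) (a : 𝕜), s.length = l + 1 → (∀ (i : Bool) (s' : Nd), s = i :: s' →
      (i :: st.b s') <:+ q ∧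
      Stab T q (Metric.closedBall (st.a s') (ε l) ∩ Metric.closedBall a (ε (l + 1)))) := by
    intro s
    cases s with
    | nil => exact ⟨[], 0, fun h => absurd h (by simp)⟩
    | cons i s' =>
      by_cases hs : s'.length = l
      · have h2 := (hg s' hs).mono (List.suffix_cons i (st.b s')) (le_refl _)
        obtain ⟨q, a, hq, hst⟩ := stab_refine h2 (hε (l + 1))
        refine ⟨q, a, fun _ j s'' hj => ?_⟩
        rw [List.cons.injEq] at hj
        rw [← hj.1, ← hj.2]
        exact ⟨hq, hst⟩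
      · exact ⟨[], 0, fun h => absurd (by simpa using h) hs⟩
  choose r a hra using h1
  let I : Nd → Set 𝕜 := fun s => Metric.closedBall (st.a s.tail) (ε l) ∩ Metric.closedBall (a s) (ε (l + 1))
  have hst : ∀ s ∈ lev (l + 1), Stab T (r s) (I s) := by
    intro s hs
    rw [mem_lev] at hs
    cases s with
    | nil => simp at hs
    | cons i s' => exact (hra (i :: s') hs i s' rfl).2
  obtain ⟨r', p, α, hr, hp⟩ := level T (st.U.image (fun u => (ev u).comp T)) (hε (l + 1)) (lev (l + 1)) r I hst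
    (lev (l + 1)) (Finset.Subset.refl _)
  refine ⟨⟨r', p, a, st.U ∪ (lev (l + 1)).image r'⟩, ?_, ?_⟩
  · intro s hs
    have hs' : s ∈ lev (l + 1) := mem_lev.2 hs
    exact (hst s hs').mono (hr s) Set.inter_subset_right
  · refine ⟨Finset.subset_union_left, ?_, ?_, ?_, ?_, ?_, ?_, ?_⟩
    · intro s hs
      exact Finset.mem_union_right _ (Finset.mem_image_of_mem r' (mem_lev.2 hs))
    · intro i s hs
      have hs' : (i :: s) ∈ lev (l + 1) := mem_lev.2 (by simp [hs])
      exact (hra (i :: s) (by simp [hs]) i s rfl).1.trans (hp _ hs').2.1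
    · intro i s hs
      have hs' : (i :: s) ∈ lev (l + 1) := mem_lev.2 (by simp [hs])
      exact (hp _ hs').2.2.2.1
    · intro i s hs
      have hs' : (i :: s) ∈ lev (l + 1) := mem_lev.2 (by simp [hs])
      obtain ⟨z, -, hz1, hz2⟩ := hst _ hs' (r (i :: s)) (List.suffix_refl _)
      rw [mem_closedBall_iff_norm] at hz1 hz2
      have hz3 : (st.a s : 𝕜) = st.a (i :: s).tail := rfl
      show ‖a (i :: s) - st.a s‖ ≤ _
      have h5 : a (i :: s) - st.a s = (z - st.a (i :: s).tail) - (z - a (i :: s)) := by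
        rw [← hz3]
        ring
      rw [h5]
      exact (norm_sub_le _ _).trans (add_le_add hz1 hz2)
    · intro s hs u hu
      exact (hp s (mem_lev.2 hs)).2.2.2.2.1 ((ev u).comp T) (Finset.mem_image_of_mem _ hu)
    · intro s hs u hu
      obtain ⟨g1, -, -, -, -, g6, -⟩ := hp s (mem_lev.2 hs)
      refine ⟨?_, (g6 u hu).2⟩
      have h5 := (g6 u hu).1
      have h6 : ‖α s - a s‖ ≤ ε (l + 1) := by
        have := g1.2
        rwa [mem_closedBall_iff_norm] at this
      have h7 : ev u (T (ee (p s))) - a s = (ev u (T (ee (p s))) - α s) + (α s - a s) := by ring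
      show ‖ev u (T (ee (p s))) - a s‖ ≤ _
      rw [h7]
      refine (norm_add_le _ _).trans ?_
      linarith
    · intro s hs s' hs' hne u hu
      exact (hp s (mem_lev.2 hs)).2.2.2.2.2.2 s' (mem_lev.2 hs') hne u hu

/-- the outcome of the fusion -/
theorem fusion (T : V 𝕜 →L[𝕜] V 𝕜) (ε : ℕ → ℝ) (hε : ∀ n, 0 < ε n) :
    ∃ (ψ pp : Nd → Nd) (a : Nd → 𝕜),
      (∀ (i : Bool) (s : Nd), (i :: ψ s) <:+ pp (i :: s)) ∧
      (∀ (i : Bool) (s : Nd), pp (i :: s) <:+ ψ (i :: s)) ∧
      (∀ (i : Bool) (s : Nd), ‖a (i :: s) - a s‖ ≤ ε s.length + ε (s.length + 1)) ∧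
      (∀ s t : Nd, t.length < s.length → ‖ev (ψ t) (T (ee (pp s)))‖ ≤ ε s.length) ∧
      (∀ s : Nd, s ≠ [] → ‖ev (ψ s) (T (ee (pp s))) - a s‖ ≤ 3 * ε s.length ∧
        ‖RR (ψ s) (T (ee (pp s)))‖ ≤ ε s.length) ∧
      (∀ s s' : Nd, s ≠ [] → s'.length = s.length → s' ≠ s → ‖ev (ψ s') (T (ee (pp s)))‖ ≤ 2 * ε s.length ∧
        ‖RR (ψ s') (T (ee (pp s)))‖ ≤ ε s.length) := by
  classical
  have h0 : Stab T [] (Set.univ : Set 𝕜) := fun q _ => by
    rw [Set.inter_univ]
    exact KK_nonempty T q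
  obtain ⟨q₀, a₀, -, hst0⟩ := stab_refine h0 (hε 0)
  let st0 : St 𝕜 := ⟨fun _ => q₀, fun _ => [], fun _ => a₀, {q₀}⟩
  have hg0 : Good T ε 0 st0 := fun s _ => hst0.mono (List.suffix_refl _) Set.inter_subset_right
  have hstep : ∀ (l : ℕ) (st : St 𝕜), ∃ st' : St 𝕜, Good T ε l st → (Good T ε (l + 1) st' ∧ Next T ε l st st') := by
    intro l st
    by_cases h : Good T ε l st
    · obtain ⟨st', h'⟩ := step T ε hε l st h
      exact ⟨st', fun _ => h'⟩
    · exact ⟨st, fun h' => absurd h' h⟩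
  choose F hF using hstep
  let sq : ℕ → St 𝕜 := fun n => Nat.rec st0 (fun l st => F l st) n
  have hsq0 : sq 0 = st0 := rfl
  have hsqs : ∀ l, sq (l + 1) = F l (sq l) := fun _ => rfl
  have hgood : ∀ l, Good T ε l (sq l) := by
    intro l
    induction l with
    | zero => exact hg0
    | succ l ih =>
      rw [hsqs]
      exact (hF l (sq l) ih).1
  have hnext : ∀ l, Next T ε l (sq l) (sq (l + 1)) := by
    intro l
    rw [hsqs]
    exact (hF l (sq l) (hgood l)).2
  have hU : ∀ l m, l ≤ m → (sq l).U ⊆ (sq m).U := by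
    intro l m hlm
    induction m, hlm using Nat.le_induction with
    | base => exact Finset.Subset.refl _
    | succ m _ ih => exact ih.trans (hnext m).sub
  have hmem : ∀ t : Nd, (sq t.length).b t ∈ (sq t.length).U := by
    intro t
    rcases Nat.eq_zero_or_pos t.length with h | h
    · rw [h, hsq0]
      exact Finset.mem_singleton_self _
    · obtain ⟨m, hm⟩ := Nat.exists_eq_succ_of_ne_zero h.ne'
      rw [hm]
      exact (hnext m).mem t hm
  refine ⟨fun t => (sq t.length).b t, fun t => (sq t.length).p t, fun t => (sq t.length).a t,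
    ?_, ?_, ?_, ?_, ?_, ?_⟩
  · intro i s
    exact (hnext s.length).emb1 i s rfl
  · intro i s
    exact (hnext s.length).emb2 i s rfl
  · intro i s
    exact (hnext s.length).cen i s rfl
  · intro s t hts
    obtain ⟨m, hm⟩ := Nat.exists_eq_succ_of_ne_zero (Nat.ne_of_gt (lt_of_le_of_lt (Nat.zero_le _) hts))
    have h1 : (sq t.length).b t ∈ (sq m).U := hU t.length m (by omega) (hmem t)
    have h2 := (hnext m).old s hm _ h1
    show ‖ev ((sq t.length).b t) (T (ee ((sq s.length).p s)))‖ ≤ _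
    rw [hm]
    exact h2
  · intro s hs
    obtain ⟨m, hm⟩ := Nat.exists_eq_succ_of_ne_zero (fun h => hs (List.length_eq_zero_iff.1 h))
    have h2 := (hnext m).dia s hm ((sq (m + 1)).b s) (List.suffix_refl _)
    show ‖ev ((sq s.length).b s) (T (ee ((sq s.length).p s))) - (sq s.length).a s‖ ≤ _ ∧
      ‖RR ((sq s.length).b s) (T (ee ((sq s.length).p s)))‖ ≤ _
    rw [hm]
    exact h2
  · intro s s' hs hss hne
    obtain ⟨m, hm⟩ := Nat.exists_eq_succ_of_ne_zero (fun h => hs (List.length_eq_zero_iff.1 h))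
    have h2 := (hnext m).off s hm s' (hss.trans hm) hne ((sq (m + 1)).b s') (List.suffix_refl _)
    show ‖ev ((sq s'.length).b s') (T (ee ((sq s.length).p s)))‖ ≤ _ ∧
      ‖RR ((sq s'.length).b s') (T (ee ((sq s.length).p s)))‖ ≤ _
    rw [hss, hm]
    exact h2

/-! ### retractions -/

theorem emb_mono {ψ : Nd → Nd} (h : ∀ (i : Bool) (s : Nd), (i :: ψ s) <:+ ψ (i :: s)) {a b : Nd}
    (hab : a <:+ b) : ψ a <:+ ψ b := by
  induction b with
  | nil =>
    rw [List.suffix_nil] at hab
    rw [hab]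
  | cons i b ih =>
    rcases List.suffix_cons_iff.1 hab with h1 | h1
    · rw [h1]
    · exact (ih h1).trans ((List.suffix_cons i _).trans (h i b))

theorem exists_cons_of_ne {a b : Nd} (hab : a <:+ b) (hne : a ≠ b) : ∃ k : Bool, (k :: a) <:+ b := by
  obtain ⟨w, hw⟩ := hab
  rcases List.eq_nil_or_concat w with h | ⟨w', k, h⟩
  · rw [h] at hw
    exact absurd hw hne
  · refine ⟨k, w', ?_⟩
    rw [← hw, h]
    simp

theorem retr (ψ m : Nd → Nd) (h1 : ∀ (i : Bool) (s : Nd), (i :: ψ s) <:+ m (i :: s))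
    (h2 : ∀ (i : Bool) (s : Nd), m (i :: s) <:+ ψ (i :: s)) :
    ∃ ρ : Nd → Nd, (∀ u t : Nd, u ≠ [] → (u <:+ ρ t ↔ m u <:+ t)) ∧ ∀ t, ρ (ψ t) = t := by
  classical
  have hψ : ∀ (i : Bool) (s : Nd), (i :: ψ s) <:+ ψ (i :: s) := fun i s => (h1 i s).trans (h2 i s)
  let ρ : Nd → Nd := fun t => List.rec [] (fun i t r =>
    if m (false :: r) = i :: t then false :: r else if m (true :: r) = i :: t then true :: r else r) t
  have hρ0 : ρ [] = [] := rfl
  have hρs : ∀ i t, ρ (i :: t) = if m (false :: ρ t) = i :: t then false :: ρ t else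
      if m (true :: ρ t) = i :: t then true :: ρ t else ρ t := fun _ _ => rfl
  have hstep : ∀ i t, ρ (i :: t) = ρ t ∨ ∃ j, ρ (i :: t) = j :: ρ t ∧ m (j :: ρ t) = i :: t := by
    intro i t
    rw [hρs]
    split_ifs with g1 g2
    · exact Or.inr ⟨false, rfl, g1⟩
    · exact Or.inr ⟨true, rfl, g2⟩
    · exact Or.inl rfl
  have hmono : ∀ i t, ρ t <:+ ρ (i :: t) := by
    intro i t
    rcases hstep i t with h | ⟨j, h, -⟩
    · rw [h]
    · rw [h]
      exact List.suffix_cons _ _
  have hmne : ∀ i s, m (i :: s) ≠ [] := by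
    intro i s h
    have := h1 i s
    rw [h, List.suffix_nil] at this
    exact absurd this (by simp)
  have claim1 : ∀ t u : Nd, u ≠ [] → u <:+ ρ t → m u <:+ t := by
    intro t
    induction t with
    | nil =>
      intro u hu h
      rw [hρ0, List.suffix_nil] at h
      exact absurd h hu
    | cons i t ih =>
      intro u hu h
      rcases hstep i t with g | ⟨j, g, g'⟩
      · rw [g] at h
        exact (ih u hu h).trans (List.suffix_cons _ _)
      · rw [g] at h
        rcases List.suffix_cons_iff.1 h with k | k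
        · rw [k, g']
        · exact (ih u hu k).trans (List.suffix_cons _ _)
  have claim2 : ∀ t u : Nd, u ≠ [] → m u <:+ t → u <:+ ρ t := by
    intro t
    induction t with
    | nil =>
      intro u hu h
      cases u with
      | nil => exact absurd rfl hu
      | cons i s =>
        rw [List.suffix_nil] at h
        exact absurd h (hmne i s)
    | cons i t ih =>
      intro u hu h
      rcases List.suffix_cons_iff.1 h with g | g
      · cases u with
        | nil => exact absurd rfl hu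
        | cons j c =>
          have e1 : (j :: ψ c) <:+ i :: t := by
            rw [← g]
            exact h1 j c
          have e2 : ψ c <:+ t := by
            rcases List.suffix_cons_iff.1 e1 with k | k
            · rw [List.cons.injEq] at k
              rw [k.2]
            · exact (List.suffix_cons _ _).trans k
          have e3 : c <:+ ρ t := by
            cases c with
            | nil => exact List.nil_suffix
            | cons i' c' => exact ih _ (by simp) ((h2 i' c').trans e2)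
          have e4 : c = ρ t := by
            by_contra hne
            obtain ⟨k, hk⟩ := exists_cons_of_ne e3 hne
            have e5 := claim1 t (k :: c) (by simp) hk
            have e6 : (k :: ψ c) <:+ i :: t := ((h1 k c).trans e5).trans (List.suffix_cons _ _)
            have e7 : (k :: ψ c) = (j :: ψ c) := eq_of_suffix_length e6 e1 (by simp)
            rw [List.cons.injEq] at e7
            rw [e7.1] at e5
            rw [g] at e5
            have := e5.length_le
            simp at this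
          rw [e4]
          rw [e4] at g
          cases j with
          | false =>
            rw [hρs, if_pos g]
          | true =>
            rw [hρs, if_neg, if_pos g]
            intro g'
            have e8 : (false :: ψ (ρ t)) <:+ i :: t := by
              rw [← g']
              exact h1 _ _
            have e9 : (true :: ψ (ρ t)) <:+ i :: t := by
              rw [← g]
              exact h1 _ _
            have := eq_of_suffix_length e8 e9 (by simp)
            simp at this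
      · exact (ih u hu g).trans (hmono i t)
  refine ⟨ρ, fun u t hu => ⟨claim1 t u hu, claim2 t u hu⟩, fun t => ?_⟩
  have e1 : t <:+ ρ (ψ t) := by
    cases t with
    | nil => exact List.nil_suffix
    | cons i s => exact claim2 _ _ (by simp) (h2 i s)
  by_contra hne
  obtain ⟨k, hk⟩ := exists_cons_of_ne e1 (fun h => hne h.symm)
  have e2 := (h1 k t).trans (claim1 _ _ (by simp) hk)
  have := e2.length_le
  simp at this

theorem retr_mono {m ρ : Nd → Nd} (h : ∀ u t : Nd, u ≠ [] → (u <:+ ρ t ↔ m u <:+ t)) {a b : Nd}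
    (hab : a <:+ b) : ρ a <:+ ρ b := by
  by_cases ha : ρ a = []
  · rw [ha]
    exact List.nil_suffix
  · exact (h _ _ ha).2 (((h _ _ ha).1 (List.suffix_refl _)).trans hab)

/-- the composition operator with a retraction -/
theorem exists_A (ψ pp : Nd → Nd) (h1 : ∀ (i : Bool) (s : Nd), (i :: ψ s) <:+ pp (i :: s))
    (h2 : ∀ (i : Bool) (s : Nd), pp (i :: s) <:+ ψ (i :: s)) :
    ∃ A : V 𝕜 →L[𝕜] V 𝕜, (∀ s : Nd, s ≠ [] → A (ee s) = ee (pp s)) ∧
      ∀ s t : Nd, s ≠ [] → (pp s <:+ ψ t ↔ s <:+ t) := by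
  obtain ⟨ρ, hρ1, hρ2⟩ := retr ψ pp h1 h2
  have hpne : ∀ s : Nd, s ≠ [] → pp s ≠ [] := by
    intro s hs h
    cases s with
    | nil => exact hs rfl
    | cons i s =>
      have := h1 i s
      rw [h, List.suffix_nil] at this
      exact absurd this (by simp)
  have hρ0 : ρ [] = [] := by
    by_contra hne
    have := (hρ1 _ _ hne).1 (List.suffix_refl _)
    rw [List.suffix_nil] at this
    exact hpne _ hne this
  obtain ⟨A, hA, -⟩ := exists_comp (𝕜 := 𝕜) ρ (fun a b hab => retr_mono hρ1 hab) (by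
    intro a b a' b' hab hab' hd u hu
    have key : ∀ a b : Nd, a <:+ b → Inn u (ρ a, ρ b) → Inn (pp u) (a, b) := by
      intro a b hab hu
      have hu0 := inn_ne_nil hu
      rw [inn_iff (retr_mono hρ1 hab)] at hu
      rw [inn_iff hab]
      have e1 := (hρ1 u b hu0).1 hu.1
      refine ⟨e1, ?_⟩
      by_contra hlt
      push Not at hlt
      have e2 := suffix_of_le e1 hab hlt
      have e3 := (hρ1 u a hu0).2 e2
      exact absurd e3.length_le (not_le.2 hu.2)
    exact hd (pp u) ⟨key a b hab hu.1, key a' b' hab' hu.2⟩)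
  refine ⟨A, ?_, ?_⟩
  · intro s hs
    apply ext_ev
    intro t
    rw [hA, hρ0, ev_nil, sub_zero, ev_ee, ev_ee]
    have e1 : (s <:+ ρ t ∧ s ≠ []) ↔ (pp s <:+ t ∧ pp s ≠ []) := by
      constructor
      · rintro ⟨g1, g2⟩
        exact ⟨(hρ1 s t g2).1 g1, hpne s hs⟩
      · rintro ⟨g1, -⟩
        exact ⟨(hρ1 s t hs).2 g1, hs⟩
    simp only [e1]
  · intro s t hs
    rw [← hρ1 s (ψ t) hs, hρ2]

/-- the composition operator with an embedding -/
theorem exists_C (ψ : Nd → Nd) (h : ∀ (i : Bool) (s : Nd), (i :: ψ s) <:+ ψ (i :: s)) :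
    ∃ C : V 𝕜 →L[𝕜] V 𝕜, (∀ x t, ev t (C x) = ev (ψ t) x - ev (ψ []) x) ∧ (∀ x, ‖C x‖ ≤ ‖x‖) ∧
      ∀ s t : Nd, (ψ s <:+ ψ t ↔ s <:+ t) := by
  let m : Nd → Nd := fun u => match u with
    | [] => []
    | i :: c => i :: ψ c
  obtain ⟨ρ, hρ1, hρ2⟩ := retr ψ m (fun i s => List.suffix_refl _) (fun i s => h i s)
  obtain ⟨C, hC, hC'⟩ := exists_comp (𝕜 := 𝕜) ψ (fun a b hab => emb_mono h hab) (by
    intro a b a' b' hab hab' hd t ht
    have key : ∀ a b : Nd, a <:+ b → Inn t (ψ a, ψ b) → Inn (ρ t) (a, b) := by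
      intro a b hab hu
      rw [inn_iff (emb_mono h hab)] at hu
      rw [inn_iff hab]
      have e1 : ρ t <:+ b := by
        have := retr_mono hρ1 hu.1
        rwa [hρ2] at this
      refine ⟨e1, ?_⟩
      have hne : a ≠ b := by
        rintro rfl
        exact absurd hu.1.length_le (not_le.2 hu.2)
      obtain ⟨k, hk⟩ := exists_cons_of_ne hab hne
      have e2 : (k :: ψ a) <:+ ψ b := (h k a).trans (emb_mono h hk)
      have e3 : (k :: ψ a) <:+ t := suffix_of_le e2 hu.1 (by simpa using hu.2)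
      have e4 : (k :: a) <:+ ρ t := (hρ1 (k :: a) t (by simp)).2 e3
      have := e4.length_le
      simp only [List.length_cons] at this
      omega
    exact hd (ρ t) ⟨key a b hab ht.1, key a' b' hab' ht.2⟩)
  refine ⟨C, hC, hC', fun s t => ⟨fun hst => ?_, fun hst => emb_mono h hst⟩⟩
  have := retr_mono hρ1 hst
  rwa [hρ2, hρ2] at this

end Pool.Agent.H585R4.JT
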