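import Pool.Agent.H585R4.JT.Fuse2

set_option autoImplicit false
open Filter Topology Finset
open scoped ENNReal

namespace Pool.Agent.H585R4.JT

variable {𝕜 : Type} [RCLike 𝕜]

theorem QQ_eq_sum (n : ℕ) (x : V 𝕜) : QQ n x = ∑ t ∈ lev n, RR t x := by
  apply ext_ev
  intro u
  rw [map_sum, ev_QQ]
  have h1 : ∀ t ∈ lev n, ev u (RR t x) = if t <:+ u then ev u x - ev t x else 0 := fun t _ => ev_RR t x u
  rw [Finset.sum_congr rfl h1]
  by_cases hu : u.length < n
  · rw [tr_of_le hu.le, sub_self, Finset.sum_eq_zero]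
    intro t ht
    rw [mem_lev] at ht
    rw [if_neg]
    intro h
    have := h.length_le
    omega
  · push Not at hu
    rw [Finset.sum_eq_single (tr n u)]
    · rw [if_pos (tr_suffix _ _)]
    · intro t ht hne
      rw [mem_lev] at ht
      rw [if_neg]
      intro h
      apply hne
      apply eq_of_suffix_length h (tr_suffix _ _)
      rw [ht, length_tr]
      omega
    · intro h
      exfalso
      apply h
      rw [mem_lev, length_tr]
      omega

theorem PP_small (n : ℕ) (h : V 𝕜) {δ : ℝ} (hδ : 0 ≤ δ) (hh : ∀ t : Nd, t.length ≤ n → ‖ev t h‖ ≤ δ) :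
    ‖PP n h‖ ≤ 2 ^ (n + 2) * δ := by
  have key : ∀ k, k ≤ n → ‖PP k h‖ ≤ (2 ^ (k + 2) - 4) * δ := by
    intro k
    induction k with
    | zero =>
      intro _
      rw [PP_zero, norm_zero]
      norm_num
    | succ k ih =>
      intro hk
      rw [PP_succ]
      refine (norm_add_le _ _).trans ?_
      have h1 := ih (by omega)
      have h2 : ‖∑ s ∈ lev (k + 1), (ev s h - ev s.tail h) • (ee s : V 𝕜)‖ ≤ 2 ^ (k + 1) * (2 * δ) := by
        refine (norm_sum_le _ _).trans ?_
        have h3 : ∀ s ∈ lev (k + 1), ‖(ev s h - ev s.tail h) • (ee s : V 𝕜)‖ ≤ 2 * δ := by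
          intro s hs
          rw [mem_lev] at hs
          rw [norm_smul]
          have h4 := hh s (by omega)
          have h5 := hh s.tail (by rw [List.length_tail]; omega)
          have h6 : ‖ev s h - ev s.tail h‖ ≤ 2 * δ := (norm_sub_le _ _).trans (by linarith)
          calc ‖ev s h - ev s.tail h‖ * ‖(ee s : V 𝕜)‖ ≤ 2 * δ * 1 :=
                mul_le_mul h6 (ee_le s) (norm_nonneg _) (by linarith)
            _ = 2 * δ := mul_one _
        refine (Finset.sum_le_sum h3).trans ?_
        rw [Finset.sum_const, card_lev, nsmul_eq_mul]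
        push_cast
        exact le_refl _
      have h7 : ((2 : ℝ) ^ (k + 1 + 2) - 4) * δ = (2 ^ (k + 2) - 4) * δ + 2 ^ (k + 1) * (2 * δ) := by ring
      rw [h7]
      exact add_le_add h1 h2
  have := key n le_rfl
  nlinarith [this]

theorem exR' (s : Nd) : ∃ T : V 𝕜 →L[𝕜] V 𝕜,
    (∀ x t, ev t (T x) = if s <:+ t then ev t x - ev s.tail x else 0) ∧ ∀ x, ‖T x‖ ≤ ‖x‖ := by
  classical
  let Θ : (Nd → 𝕜) →ₗ[𝕜] (Nd → 𝕜) :=
    { toFun := fun f t => if s <:+ t then f t - f s.tail else 0
      map_add' := by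
        intro f g
        funext t
        simp only [Pi.add_apply]
        split_ifs
        · ring
        · ring
      map_smul' := by
        intro c f
        funext t
        simp only [Pi.smul_apply, smul_eq_mul, RingHom.id_apply]
        split_ifs
        · ring
        · ring }
  obtain ⟨T, h1, h2⟩ := exists_pathop (𝕜 := 𝕜) Θ (by
    intro f hf
    show (if s <:+ [] then f [] - f s.tail else 0) = 0
    split_ifs with h
    · rw [List.suffix_nil] at h
      rw [h, List.tail_nil, sub_self]
    · rfl) (by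
    intro a b hab
    by_cases hb : s <:+ b
    · by_cases ha : s <:+ a
      · refine ⟨a, b, hab, fun t ht => ht, fun f _ => ?_⟩
        show (if s <:+ b then f b - f s.tail else 0) - (if s <:+ a then f a - f s.tail else 0) = _
        rw [if_pos hb, if_pos ha]
        ring
      · have hb' : s.tail <:+ b := (List.tail_suffix s).trans hb
        refine ⟨s.tail, b, hb', ?_, fun f _ => ?_⟩
        · intro t ht
          rw [inn_iff hb'] at ht
          rw [inn_iff hab]
          refine ⟨ht.1, ?_⟩
          have h5 : a.length < s.length := by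
            by_contra hlt
            push Not at hlt
            exact ha (suffix_of_le hb hab hlt)
          have h6 := ht.2
          rw [List.length_tail] at h6
          omega
        · show (if s <:+ b then f b - f s.tail else 0) - (if s <:+ a then f a - f s.tail else 0) = _
          rw [if_pos hb, if_neg ha, sub_zero]
    · have ha : ¬ s <:+ a := fun h => hb (h.trans hab)
      refine ⟨a, a, List.suffix_refl a, ?_, fun f _ => ?_⟩
      · rintro t ht
        rw [inn_iff (List.suffix_refl a)] at ht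
        exact absurd ht.1.length_le (not_le.2 ht.2)
      · show (if s <:+ b then f b - f s.tail else 0) - (if s <:+ a then f a - f s.tail else 0) = _
        rw [if_neg hb, if_neg ha, sub_self, sub_self])
  exact ⟨T, fun x t => h1 x t, h2⟩

theorem R'_ee {s s' : Nd} (hs : s ≠ []) (hs' : s' ≠ []) {R : V 𝕜 →L[𝕜] V 𝕜}
    (hR : ∀ x t, ev t (R x) = if s' <:+ t then ev t x - ev s'.tail x else 0) :
    R (ee s) = (if s' <:+ s then (1 : 𝕜) else 0) • (ee s : V 𝕜) := by
  apply ext_ev
  intro t
  rw [hR, map_smul, ev_ee, ev_ee, smul_eq_mul]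
  by_cases h1 : s' <:+ s
  · rw [if_pos h1, one_mul]
    have h2 : ¬ (s <:+ s'.tail ∧ s ≠ []) := by
      rintro ⟨h3, -⟩
      have h4 := h3.length_le
      have h5 := h1.length_le
      rw [List.length_tail] at h4
      have h6 : 0 < s'.length := List.length_pos_iff.2 hs'
      omega
    rw [if_neg h2, sub_zero]
    by_cases h3 : s <:+ t
    · rw [if_pos (h1.trans h3)]
    · have h4 : ¬ (s <:+ t ∧ s ≠ []) := fun h => h3 h.1
      rw [if_neg h4]
      split_ifs <;> rfl
  · rw [if_neg h1, zero_mul]
    by_cases h3 : s' <:+ t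
    · rw [if_pos h3]
      by_cases h4 : s <:+ t
      · have h5 : s <:+ s' := by
          rcases suffix_total h3 h4 with h | h
          · exact absurd h h1
          · exact h
        have h6 : s <:+ s'.tail := by
          apply suffix_of_le h5 (List.tail_suffix s')
          rw [List.length_tail]
          have h7 : s.length < s'.length := by
            rcases lt_or_eq_of_le h5.length_le with h | h
            · exact h
            · exact absurd (h5.eq_of_length h ▸ List.suffix_refl _) h1
          omega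
        rw [if_pos ⟨h4, hs⟩, if_pos ⟨h6, hs⟩, sub_self]
      · have h6 : ¬ s <:+ s'.tail := fun h => h4 ((h.trans (List.tail_suffix s')).trans h3)
        rw [if_neg (fun h => h4 h.1), if_neg (fun h => h6 h.1), sub_self]
    · rw [if_neg h3]

theorem PP_ee (N : ℕ) {s : Nd} : PP N (ee s : V 𝕜) = if s.length ≤ N then ee s else 0 := by
  apply ext_ev
  intro t
  rw [ev_PP, ev_ee]
  by_cases h : s.length ≤ N
  · rw [if_pos h, ev_ee]
    have : s <:+ tr N t ↔ s <:+ t := ⟨fun g => g.trans (tr_suffix _ _), fun g => suffix_tr g h⟩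
    simp only [this]
  · rw [if_neg h, map_zero, if_neg]
    rintro ⟨g, -⟩
    have := g.length_le
    rw [length_tr] at this
    omega

/-- invertibility of small perturbations of scalars -/
theorem inv_of_close {X : Type} [NormedAddCommGroup X] [NormedSpace 𝕜 X] [CompleteSpace X] (L : X →L[𝕜] X)
    (a : 𝕜) (θ : ℝ) (hθ : 0 ≤ θ) (hθa : θ < ‖a‖) (h : ∀ x, ‖L x - a • x‖ ≤ θ * ‖x‖) :
    ∃ B : X →L[𝕜] X, ∀ x, B (L x) = x := by
  have ha : a ≠ 0 := by
    rintro rfl
    rw [norm_zero] at hθa
    linarith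
  have ha' : 0 < ‖a‖ := norm_pos_iff.2 ha
  let N : X →L[𝕜] X := ContinuousLinearMap.id 𝕜 X - a⁻¹ • L
  have hN : ‖N‖ ≤ θ / ‖a‖ := by
    apply ContinuousLinearMap.opNorm_le_bound _ (by positivity)
    intro x
    have h1 : N x = - (a⁻¹ • (L x - a • x)) := by
      show x - a⁻¹ • L x = _
      rw [smul_sub, smul_smul, inv_mul_cancel₀ ha, one_smul]
      abel
    rw [h1, norm_neg, norm_smul, norm_inv, div_mul_eq_mul_div, inv_mul_eq_div]
    exact div_le_div_of_nonneg_right (h x) ha'.le
  have hN1 : ‖N‖ < 1 := lt_of_le_of_lt hN ((div_lt_one ha').2 hθa)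
  let u : (X →L[𝕜] X)ˣ := Units.oneSub N hN1
  have hu : (u : X →L[𝕜] X) = a⁻¹ • L := by
    show (1 : X →L[𝕜] X) - N = _
    ext x
    show x - (x - a⁻¹ • L x) = a⁻¹ • L x
    abel
  refine ⟨a⁻¹ • (↑u⁻¹ : X →L[𝕜] X), fun x => ?_⟩
  have h2 : ((↑u⁻¹ : X →L[𝕜] X) * (u : X →L[𝕜] X)) x = x := by
    rw [Units.inv_mul]
    rfl
  rw [hu] at h2
  have h3 : (↑u⁻¹ : X →L[𝕜] X) ((a⁻¹ • L) x) = x := h2
  rw [show (a⁻¹ • L) x = a⁻¹ • L x from rfl, map_smul] at h3
  exact h3

theorem key_estimate (T : V 𝕜 →L[𝕜] V 𝕜) :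
    ∃ (A C : V 𝕜 →L[𝕜] V 𝕜) (a : 𝕜), (∀ x, C (A x) = x) ∧ ∀ x, ‖C (T (A x)) - a • x‖ ≤ 1 / 10 * ‖x‖ := by
  classical
  set κ : ℝ := 1 / 100 with hκ
  let ε : ℕ → ℝ := fun n => κ / 32 ^ n
  have hε : ∀ n, 0 < ε n := fun n => by positivity
  obtain ⟨ψ, pp, a, h1, h2, h3, h4, h5, h6⟩ := fusion T ε hε
  have hψ : ∀ (i : Bool) (s : Nd), (i :: ψ s) <:+ ψ (i :: s) := fun i s => (h1 i s).trans (h2 i s)
  obtain ⟨A, hA, hpp⟩ := exists_A (𝕜 := 𝕜) ψ pp h1 h2
  obtain ⟨C, hC, hC', hCψ⟩ := exists_C (𝕜 := 𝕜) ψ hψ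
  have hpne : ∀ s : Nd, s ≠ [] → pp s ≠ [] := by
    intro s hs h
    cases s with
    | nil => exact hs rfl
    | cons i s =>
      have := h1 i s
      rw [h, List.suffix_nil] at this
      exact absurd this (by simp)
  have hCA : C.comp A = ContinuousLinearMap.id 𝕜 (V 𝕜) := by
    apply ext_ee
    intro s hs
    show C (A (ee s)) = ee s
    rw [hA s hs]
    apply ext_ev
    intro t
    rw [hC, ev_ee, ev_ee, ev_ee]
    have e1 : ¬ (pp s <:+ ψ [] ∧ pp s ≠ []) := by
      rintro ⟨g, -⟩
      have := (hpp s [] hs).1 g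
      rw [List.suffix_nil] at this
      exact hs this
    rw [if_neg e1, sub_zero]
    have e2 : (pp s <:+ ψ t ∧ pp s ≠ []) ↔ (s <:+ t ∧ s ≠ []) := by
      constructor
      · rintro ⟨g, -⟩
        exact ⟨(hpp s t hs).1 g, hs⟩
      · rintro ⟨g, -⟩
        exact ⟨(hpp s t hs).2 g, hpne s hs⟩
    simp only [e2]
  refine ⟨A, C, a [], fun x => by
    have := congrArg (fun L : V 𝕜 →L[𝕜] V 𝕜 => L x) hCA
    exact this, ?_⟩
  -- the small error
  have herr : ∀ s : Nd, s ≠ [] → ‖C (T (A (ee s))) - a s • (ee s : V 𝕜)‖ ≤ 2 ^ (s.length + 5) * ε s.length := by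
    intro s hs
    rw [hA s hs]
    set n := s.length with hn
    have hn0 : 0 < n := List.length_pos_iff.2 hs
    set y := T (ee (pp s)) with hy
    set h := C y - a s • (ee s : V 𝕜) with hh
    have hroot : ‖ev (ψ []) y‖ ≤ ε n := h4 s [] (by simpa using hn0)
    have hev : ∀ t : Nd, ev t h = ev (ψ t) y - ev (ψ []) y - a s * (if s <:+ t ∧ s ≠ [] then 1 else 0) := by
      intro t
      rw [hh, map_sub, hC, map_smul, ev_ee, smul_eq_mul]
    have hval : ∀ t : Nd, t.length ≤ n → ‖ev t h‖ ≤ 4 * ε n := by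
      intro t ht
      rw [hev]
      have hεn := hε n
      rcases lt_or_eq_of_le ht with g | g
      · have e1 : ¬ (s <:+ t ∧ s ≠ []) := by
          rintro ⟨k, -⟩
          have := k.length_le
          omega
        rw [if_neg e1, mul_zero, sub_zero]
        have e2 := h4 s t g
        exact (norm_sub_le _ _).trans (by linarith)
      · by_cases hts : t = s
        · subst hts
          rw [if_pos ⟨List.suffix_refl _, hs⟩, mul_one]
          have e3 := (h5 t hs).1
          have e4 : ev (ψ t) y - ev (ψ []) y - a t = (ev (ψ t) y - a t) - ev (ψ []) y := by ring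
          rw [e4]
          exact (norm_sub_le _ _).trans (by linarith)
        · have e1 : ¬ (s <:+ t ∧ s ≠ []) := by
            rintro ⟨k, -⟩
            exact hts (k.eq_of_length g.symm).symm
          rw [if_neg e1, mul_zero, sub_zero]
          have e2 := (h6 s t hs g hts).1
          exact (norm_sub_le _ _).trans (by linarith)
    have hRR : ∀ t ∈ lev n, ‖RR t h‖ ≤ ε n := by
      intro t ht
      rw [mem_lev] at ht
      have e1 : RR t h = C (RR (ψ t) y) := by
        apply ext_ev
        intro u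
        rw [ev_RR, hC, ev_RR, ev_RR, hev, hev]
        have e2 : ¬ (ψ t <:+ ψ []) := by
          rw [hCψ, List.suffix_nil]
          rintro rfl
          simp at ht
          omega
        rw [if_neg e2, sub_zero]
        by_cases g : t <:+ u
        · rw [if_pos g, if_pos ((hCψ t u).2 g)]
          have e3 : (s <:+ u ∧ s ≠ []) ↔ (s <:+ t ∧ s ≠ []) := by
            constructor
            · rintro ⟨k, k'⟩
              exact ⟨suffix_of_le k g (by omega), k'⟩
            · rintro ⟨k, k'⟩
              exact ⟨k.trans g, k'⟩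
          simp only [e3]
          ring
        · rw [if_neg g, if_neg (fun k => g ((hCψ t u).1 k))]
      rw [e1]
      refine (hC' _).trans ?_
      by_cases hts : t = s
      · subst hts
        exact (h5 t hs).2
      · exact (h6 s t hs ht hts).2
    have e5 : ‖h‖ ≤ ‖PP n h‖ + ‖QQ n h‖ := by
      conv_lhs => rw [← PP_add_QQ n h]
      exact norm_add_le _ _
    have e6 : ‖PP n h‖ ≤ 2 ^ (n + 2) * (4 * ε n) := PP_small n h (by have := hε n; linarith) hval
    have e7 : ‖QQ n h‖ ≤ 2 ^ n * ε n := by
      rw [QQ_eq_sum]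
      refine (norm_sum_le _ _).trans ((Finset.sum_le_sum hRR).trans ?_)
      rw [Finset.sum_const, card_lev, nsmul_eq_mul]
      push_cast
      exact le_refl _
    have e8 : (2 : ℝ) ^ (n + 5) * ε n = 2 ^ (n + 2) * (4 * ε n) + 2 ^ (n + 4) * ε n := by ring
    have e9 : (2 : ℝ) ^ n * ε n ≤ 2 ^ (n + 4) * ε n :=
      mul_le_mul_of_nonneg_right (pow_le_pow_right₀ one_le_two (by omega)) (hε n).le
    linarith
  -- the multiplier part
  have hR' : ∀ s : Nd, ∃ R : V 𝕜 →L[𝕜] V 𝕜,
    (∀ x t, ev t (R x) = if s <:+ t then ev t x - ev s.tail x else 0) ∧ ∀ x, ‖R x‖ ≤ ‖x‖ := fun s => exR' s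
  choose R hR1 hR2 using hR'
  let W : V 𝕜 →L[𝕜] V 𝕜 := (C.comp (T.comp A)) - a [] • ContinuousLinearMap.id 𝕜 (V 𝕜)
  let Gm : ℕ → (V 𝕜 →L[𝕜] V 𝕜) := fun N =>
    ∑ n ∈ Finset.range N, ∑ s ∈ lev (n + 1), (a s - a s.tail) • R s
  have hGapp : ∀ N x, Gm N x = ∑ n ∈ Finset.range N, ∑ s ∈ lev (n + 1), (a s - a s.tail) • R s x := by
    intro N x
    simp only [Gm, _root_.sum_apply, _root_.smul_apply]
  have hGee : ∀ N (s : Nd), s ≠ [] → s.length ≤ N → Gm N (ee s) = (a s - a []) • (ee s : V 𝕜) := by
    intro N s hs hsN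
    rw [hGapp]
    have e1 : ∀ n ∈ Finset.range N, ∑ s' ∈ lev (n + 1), (a s' - a s'.tail) • R s' (ee s)
        = (a (tr (n + 1) s) - a (tr n s)) • (ee s : V 𝕜) := by
      intro n _
      have e2 : ∀ s' ∈ lev (n + 1), (a s' - a s'.tail) • R s' (ee s)
          = (if s' <:+ s then (a s' - a s'.tail) else 0) • (ee s : V 𝕜) := by
        intro s' hs'
        rw [mem_lev] at hs'
        have hs'0 : s' ≠ [] := by
          rintro rfl
          simp at hs'
        rw [R'_ee hs hs'0 (hR1 s'), smul_smul]
        congr 1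
        split_ifs
        · rw [mul_one]
        · rw [mul_zero]
      rw [Finset.sum_congr rfl e2, ← Finset.sum_smul]
      congr 1
      by_cases hn : n < s.length
      · rw [Finset.sum_eq_single (tr (n + 1) s)]
        · rw [if_pos (tr_suffix _ _), tail_tr n hn]
        · intro s' hs' hne
          rw [mem_lev] at hs'
          rw [if_neg]
          intro g
          apply hne
          apply eq_of_suffix_length g (tr_suffix _ _)
          rw [hs', length_tr]
          omega
        · intro g
          exfalso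
          apply g
          rw [mem_lev, length_tr]
          omega
      · push Not at hn
        rw [tr_of_le hn, tr_of_le (hn.trans (Nat.le_succ n)), sub_self, Finset.sum_eq_zero]
        intro s' hs'
        rw [mem_lev] at hs'
        rw [if_neg]
        intro g
        have := g.length_le
        omega
    rw [Finset.sum_congr rfl e1, ← Finset.sum_smul, Finset.sum_range_sub (fun n => a (tr n s))]
    have e3 : tr 0 s = [] := by
      apply List.length_eq_zero_iff.1
      rw [length_tr]
      simp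
    rw [tr_of_le hsN, e3]
  have hGn : ∀ N x, ‖Gm N x‖ ≤ 1 / 20 * ‖x‖ := by
    intro N x
    rw [hGapp]
    have e1 : ∀ n ∈ Finset.range N, ‖∑ s ∈ lev (n + 1), (a s - a s.tail) • R s x‖
        ≤ (4 * κ * (1 / 16) ^ n) * ‖x‖ := by
      intro n _
      refine (norm_sum_le _ _).trans ?_
      have e2 : ∀ s ∈ lev (n + 1), ‖(a s - a s.tail) • R s x‖ ≤ 2 * ε n * ‖x‖ := by
        intro s hs
        rw [mem_lev] at hs
        cases s with
        | nil => simp at hs
        | cons i s' =>
          have hs' : s'.length = n := by simpa using hs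
          rw [norm_smul]
          have e3 := h3 i s'
          rw [hs'] at e3
          have e4 : ε (n + 1) ≤ ε n := by
            show κ / 32 ^ (n + 1) ≤ κ / 32 ^ n
            apply div_le_div_of_nonneg_left (by positivity) (by positivity)
            exact pow_le_pow_right₀ (by norm_num) (Nat.le_succ n)
          exact mul_le_mul (e3.trans (by linarith)) (hR2 _ x) (norm_nonneg _) (by have := hε n; linarith)
      refine (Finset.sum_le_sum e2).trans ?_
      rw [Finset.sum_const, card_lev, nsmul_eq_mul]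
      push_cast
      apply le_of_eq
      show (2 : ℝ) ^ (n + 1) * (2 * (κ / 32 ^ n) * ‖x‖) = _
      have : (32 : ℝ) ^ n = 2 ^ n * 16 ^ n := by
        rw [← mul_pow]
        norm_num
      rw [this, one_div, inv_pow]
      field_simp
      ring
    refine (norm_sum_le _ _).trans ((Finset.sum_le_sum e1).trans ?_)
    rw [← Finset.sum_mul]
    apply mul_le_mul_of_nonneg_right _ (norm_nonneg _)
    rw [← Finset.mul_sum]
    have e5 : ∑ n ∈ Finset.range N, (1 / 16 : ℝ) ^ n ≤ 16 / 15 := by
      have := geom_sum_eq (show (1 / 16 : ℝ) ≠ 1 by norm_num) N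
      rw [this, div_le_iff_of_neg (by norm_num)]
      have h0 : (0 : ℝ) ≤ (1 / 16) ^ N := by positivity
      linarith
    rw [hκ]
    linarith
  have hT' : ∀ N x, ‖W (PP N x) - Gm N (PP N x)‖ ≤ 1 / 20 * ‖x‖ := by
    intro N x
    have e1 := norm_le_of_basis ((W - Gm N).comp (PP N)) (fun n => 2 ^ (n + 5) * ε n) (1 / 20) (by
      intro s hs
      show ‖(W - Gm N) (PP N (ee s))‖ ≤ _
      rw [PP_ee]
      split_ifs with g
      · have e2 : (W - Gm N) (ee s) = C (T (A (ee s))) - a s • (ee s : V 𝕜) := by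
          show C (T (A (ee s))) - a [] • (ee s : V 𝕜) - Gm N (ee s) = _
          rw [hGee N s hs g, sub_smul]
          abel
        rw [e2]
        exact herr s hs
      · rw [map_zero, norm_zero]
        have := hε s.length
        positivity) (by
      intro N
      have e3 : ∀ n ∈ Finset.range N, (2 : ℝ) ^ (n + 1) * (2 ^ (n + 1 + 5) * ε (n + 1)) = 4 * κ * (1 / 8) ^ n := by
        intro n _
        show (2 : ℝ) ^ (n + 1) * (2 ^ (n + 1 + 5) * (κ / 32 ^ (n + 1))) = _
        have : (32 : ℝ) ^ (n + 1) = 32 * (2 ^ n * 2 ^ n * 8 ^ n) := by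
          rw [← mul_pow, ← mul_pow, pow_succ]
          norm_num
          ring
        rw [this, one_div, inv_pow]
        field_simp
        ring
      rw [Finset.sum_congr rfl e3, ← Finset.mul_sum]
      have e5 : ∑ n ∈ Finset.range N, (1 / 8 : ℝ) ^ n ≤ 8 / 7 := by
        have := geom_sum_eq (show (1 / 8 : ℝ) ≠ 1 by norm_num) N
        rw [this, div_le_iff_of_neg (by norm_num)]
        have h0 : (0 : ℝ) ≤ (1 / 8) ^ N := by positivity
        linarith
      rw [hκ]
      linarith) x
    exact e1
  intro x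
  have hW : ∀ N, ‖W (PP N x)‖ ≤ 1 / 10 * ‖x‖ := by
    intro N
    have e1 := hT' N x
    have e2 := (hGn N (PP N x)).trans (mul_le_mul_of_nonneg_left (PP_le N x) (by norm_num))
    have e3 : W (PP N x) = (W (PP N x) - Gm N (PP N x)) + Gm N (PP N x) := by abel
    rw [e3]
    refine (norm_add_le _ _).trans ?_
    linarith
  have hlim : Tendsto (fun N => ‖W (PP N x)‖) atTop (𝓝 ‖W x‖) :=
    ((W.continuous.tendsto x).comp (tendsto_PP x)).norm
  exact le_of_tendsto hlim (Filter.Eventually.of_forall hW)

/-- Task 585-F: the identity factors through `T` or through `1 - T`. -/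
theorem taskF : TaskF 𝕜 := by
  intro T
  obtain ⟨A, C, a, hCA, h⟩ := key_estimate T
  by_cases ha : 1 / 2 ≤ ‖a‖
  · left
    obtain ⟨B, hB⟩ := inv_of_close (C.comp (T.comp A)) a (1 / 10) (by norm_num) (by linarith) h
    exact ⟨A, B.comp C, hB⟩
  · right
    push Not at ha
    have h1 : 1 / 2 ≤ ‖1 - a‖ := by
      have := norm_sub_norm_le (1 : 𝕜) a
      rw [norm_one] at this
      linarith
    obtain ⟨B, hB⟩ := inv_of_close (C.comp (A - T.comp A)) (1 - a) (1 / 10) (by norm_num) (by linarith) (by
      intro x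
      show ‖C (A x - T (A x)) - (1 - a) • x‖ ≤ _
      rw [map_sub, hCA]
      have e1 : x - C (T (A x)) - (1 - a) • x = - (C (T (A x)) - a • x) := by
        rw [sub_smul, one_smul]
        abel
      rw [e1, norm_neg]
      exact h x)
    exact ⟨A, B.comp C, hB⟩

end Pool.Agent.H585R4.JT
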