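import Pool.Agent.H585R4.JT.Space

set_option autoImplicit false
open Filter Topology Finset
open scoped ENNReal

namespace Pool.Agent.H585R4.JT

/-! ### nodes -/

theorem inn_iff {t a b : Nd} (h : a <:+ b) : Inn t (a, b) ↔ t <:+ b ∧ a.length < t.length := by
  constructor
  · rintro ⟨h1, h2, h3⟩
    refine ⟨h3, ?_⟩
    rcases lt_or_eq_of_le h1.length_le with h4 | h4
    · exact h4
    · exact absurd (h1.eq_of_length h4).symm h2
  · rintro ⟨h1, h2⟩
    refine ⟨List.suffix_of_suffix_length_le h h1 h2.le, ?_, h1⟩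
    rintro rfl
    exact lt_irrefl _ h2

theorem suffix_total {a b t : Nd} (ha : a <:+ t) (hb : b <:+ t) : a <:+ b ∨ b <:+ a :=
  List.suffix_or_suffix_of_suffix ha hb

theorem suffix_of_le {a b t : Nd} (ha : a <:+ t) (hb : b <:+ t) (h : a.length ≤ b.length) : a <:+ b :=
  List.suffix_of_suffix_length_le ha hb h

/-- The ancestor of `t` at depth `min n |t|`. -/
def tr (n : ℕ) (t : Nd) : Nd := t.drop (t.length - n)

theorem tr_suffix (n : ℕ) (t : Nd) : tr n t <:+ t := List.drop_suffix _ _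

theorem length_tr (n : ℕ) (t : Nd) : (tr n t).length = min n t.length := by
  unfold tr
  rw [List.length_drop]
  omega

theorem tr_of_le {n : ℕ} {t : Nd} (h : t.length ≤ n) : tr n t = t := by
  unfold tr
  rw [Nat.sub_eq_zero_of_le h, List.drop_zero]

theorem suffix_tr {n : ℕ} {u t : Nd} (h : u <:+ t) (hn : u.length ≤ n) : u <:+ tr n t :=
  suffix_of_le h (tr_suffix n t) (by rw [length_tr]; exact le_min hn h.length_le)

theorem tr_mono (n : ℕ) {a b : Nd} (h : a <:+ b) : tr n a <:+ tr n b :=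
  suffix_tr ((tr_suffix n a).trans h) (by rw [length_tr]; exact min_le_left _ _)

theorem eq_of_suffix_length {a b t : Nd} (ha : a <:+ t) (hb : b <:+ t) (h : a.length = b.length) :
    a = b := (suffix_of_le ha hb h.le).eq_of_length h

theorem tr_eq_of_suffix {n : ℕ} {a b : Nd} (h : a <:+ b) (hn : n ≤ a.length) : tr n a = tr n b := by
  apply eq_of_suffix_length ((tr_suffix n a).trans h) (tr_suffix n b)
  rw [length_tr, length_tr]
  have := h.length_le
  omega

variable {𝕜 : Type} [RCLike 𝕜]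

/-! ### path operators -/

theorem exists_pathop (Θ : (Nd → 𝕜) →ₗ[𝕜] (Nd → 𝕜)) (h0 : ∀ f : Nd → 𝕜, f [] = 0 → Θ f [] = 0)
    (hΘ : ∀ a b : Nd, a <:+ b → ∃ c d : Nd, c <:+ d ∧ (∀ t, Inn t (c, d) → Inn t (a, b)) ∧
      ∀ f : Nd → 𝕜, f [] = 0 → Θ f b - Θ f a = f d - f c) :
    ∃ T : V 𝕜 →L[𝕜] V 𝕜, (∀ x t, ev t (T x) = Θ (fun s => ev s x) t) ∧ ∀ x, ‖T x‖ ≤ ‖x‖ := by
  classical
  obtain ⟨T, h1, h2⟩ := exists_op Θ h0 (C := 1) zero_le_one (by
    intro x F hF
    have hc : ∀ p : Nd × Nd, ∃ q : Nd × Nd, p.1 <:+ p.2 → (q.1 <:+ q.2 ∧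
        (∀ t, Inn t q → Inn t p) ∧ ∀ f : Nd → 𝕜, f [] = 0 → Θ f p.2 - Θ f p.1 = f q.2 - f q.1) := by
      intro p
      by_cases hp : p.1 <:+ p.2
      · obtain ⟨c, d, h1, h2, h3⟩ := hΘ p.1 p.2 hp
        exact ⟨(c, d), fun _ => ⟨h1, h2, h3⟩⟩
      · exact ⟨p, fun h => absurd h hp⟩
    choose q hq using hc
    have h3 := sum_le x F q (fun p hp => (hq p (hF.1 p hp)).1)
      (fun p hp p' hp' hne t ht => hF.2 p hp p' hp' hne t
        ⟨(hq p (hF.1 p hp)).2.1 t ht.1, (hq p' (hF.1 p' hp')).2.1 t ht.2⟩)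
    rw [one_mul]
    refine le_trans (le_of_eq ?_) h3
    apply Finset.sum_congr rfl
    intro p hp
    rw [(hq p (hF.1 p hp)).2.2 _ (ev_nil x)])
  exact ⟨T, h1, fun x => by simpa using h2 x⟩

/-- linear maps of functions on nodes -/
def thP (n : ℕ) : (Nd → 𝕜) →ₗ[𝕜] (Nd → 𝕜) where
  toFun f := fun t => f (tr n t)
  map_add' _ _ := rfl
  map_smul' _ _ := rfl

def thQ (n : ℕ) : (Nd → 𝕜) →ₗ[𝕜] (Nd → 𝕜) where
  toFun f := fun t => f t - f (tr n t)
  map_add' f g := by
    funext t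
    simp only [Pi.add_apply]
    ring
  map_smul' c f := by
    funext t
    simp only [Pi.smul_apply, smul_eq_mul, RingHom.id_apply]
    ring

open Classical in
noncomputable def thR (s : Nd) : (Nd → 𝕜) →ₗ[𝕜] (Nd → 𝕜) where
  toFun f := fun t => if s <:+ t then f t - f s else 0
  map_add' f g := by
    funext t
    simp only [Pi.add_apply]
    split_ifs
    · ring
    · ring
  map_smul' c f := by
    funext t
    simp only [Pi.smul_apply, smul_eq_mul, RingHom.id_apply]
    split_ifs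
    · ring
    · ring

theorem exP (n : ℕ) : ∃ T : V 𝕜 →L[𝕜] V 𝕜, (∀ x t, ev t (T x) = ev (tr n t) x) ∧ ∀ x, ‖T x‖ ≤ ‖x‖ := by
  apply exists_pathop (thP n)
  · intro f hf
    show f (tr n []) = 0
    rw [tr_of_le (Nat.zero_le _), hf]
  · intro a b hab
    refine ⟨tr n a, tr n b, tr_mono n hab, ?_, fun f _ => rfl⟩
    intro t ht
    rw [inn_iff (tr_mono n hab)] at ht
    rw [inn_iff hab]
    have h1 := length_tr n a
    have h2 := length_tr n b
    have h3 := ht.1.length_le
    have h4 := ht.2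
    exact ⟨ht.1.trans (tr_suffix n b), by omega⟩

theorem exQ (n : ℕ) : ∃ T : V 𝕜 →L[𝕜] V 𝕜, (∀ x t, ev t (T x) = ev t x - ev (tr n t) x) ∧
    ∀ x, ‖T x‖ ≤ ‖x‖ := by
  apply exists_pathop (thQ n)
  · intro f hf
    show f [] - f (tr n []) = 0
    rw [tr_of_le (Nat.zero_le _), sub_self]
  · intro a b hab
    by_cases ha : n ≤ a.length
    · refine ⟨a, b, hab, fun t ht => ht, fun f _ => ?_⟩
      show f b - f (tr n b) - (f a - f (tr n a)) = _
      rw [tr_eq_of_suffix hab ha]
      ring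
    · push Not at ha
      refine ⟨tr n b, b, tr_suffix n b, ?_, fun f _ => ?_⟩
      · intro t ht
        rw [inn_iff (tr_suffix n b)] at ht
        rw [inn_iff hab]
        have h2 := length_tr n b
        have h3 := ht.1.length_le
        have h4 := ht.2
        have h5 := hab.length_le
        exact ⟨ht.1, by omega⟩
      · show f b - f (tr n b) - (f a - f (tr n a)) = _
        rw [tr_of_le ha.le]
        ring

theorem exR (s : Nd) : ∃ T : V 𝕜 →L[𝕜] V 𝕜, (∀ x t, ev t (T x) = if s <:+ t then ev t x - ev s x else 0) ∧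
    ∀ x, ‖T x‖ ≤ ‖x‖ := by
  classical
  obtain ⟨T, h1, h2⟩ := exists_pathop (𝕜 := 𝕜) (thR s) (by
    intro f hf
    show (if s <:+ [] then f [] - f s else 0) = 0
    split_ifs with h
    · rw [List.suffix_nil] at h
      rw [h, sub_self]
    · rfl) (by
    intro a b hab
    by_cases hb : s <:+ b
    · by_cases ha : s <:+ a
      · refine ⟨a, b, hab, fun t ht => ht, fun f _ => ?_⟩
        show (if s <:+ b then f b - f s else 0) - (if s <:+ a then f a - f s else 0) = _
        rw [if_pos hb, if_pos ha]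
        ring
      · refine ⟨s, b, hb, ?_, fun f _ => ?_⟩
        · intro t ht
          rw [inn_iff hb] at ht
          rw [inn_iff hab]
          refine ⟨ht.1, lt_of_le_of_lt ?_ ht.2⟩
          by_contra hlt
          push Not at hlt
          exact ha (suffix_of_le hb hab hlt.le)
        · show (if s <:+ b then f b - f s else 0) - (if s <:+ a then f a - f s else 0) = _
          rw [if_pos hb, if_neg ha, sub_zero]
    · have ha : ¬ s <:+ a := fun h => hb (h.trans hab)
      refine ⟨a, a, List.suffix_refl a, ?_, fun f _ => ?_⟩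
      · rintro t ht
        rw [inn_iff (List.suffix_refl a)] at ht
        exact absurd ht.1.length_le (not_le.2 ht.2)
      · show (if s <:+ b then f b - f s else 0) - (if s <:+ a then f a - f s else 0) = _
        rw [if_neg hb, if_neg ha, sub_self, sub_self])
  refine ⟨T, fun x t => ?_, h2⟩
  rw [h1]
  rfl

/-- truncation at level `n` -/
noncomputable def PP (n : ℕ) : V 𝕜 →L[𝕜] V 𝕜 := (exP n).choose
/-- the part below level `n` -/
noncomputable def QQ (n : ℕ) : V 𝕜 →L[𝕜] V 𝕜 := (exQ n).choose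
/-- the part strictly below the node `s` -/
noncomputable def RR (s : Nd) : V 𝕜 →L[𝕜] V 𝕜 := (exR s).choose

theorem ev_PP (n : ℕ) (x : V 𝕜) (t : Nd) : ev t (PP n x) = ev (tr n t) x := (exP n).choose_spec.1 x t
theorem PP_le (n : ℕ) (x : V 𝕜) : ‖PP n x‖ ≤ ‖x‖ := (exP n).choose_spec.2 x
theorem ev_QQ (n : ℕ) (x : V 𝕜) (t : Nd) : ev t (QQ n x) = ev t x - ev (tr n t) x :=
  (exQ n).choose_spec.1 x t
theorem QQ_le (n : ℕ) (x : V 𝕜) : ‖QQ n x‖ ≤ ‖x‖ := (exQ n).choose_spec.2 x
theorem ev_RR (s : Nd) (x : V 𝕜) (t : Nd) : ev t (RR s x) = if s <:+ t then ev t x - ev s x else 0 :=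
  (exR s).choose_spec.1 x t
theorem RR_le (s : Nd) (x : V 𝕜) : ‖RR s x‖ ≤ ‖x‖ := (exR s).choose_spec.2 x

theorem PP_add_QQ (n : ℕ) (x : V 𝕜) : PP n x + QQ n x = x := by
  apply ext_ev
  intro t
  rw [map_add, ev_PP, ev_QQ]
  ring

/-- near-optimal families -/
theorem exists_fam (x : V 𝕜) {ε : ℝ} (hε : 0 < ε) :
    ∃ F : Finset (Nd × Nd), Adm F ∧ ‖x‖ ^ 2 - ε ≤ ∑ p ∈ F, ‖ev p.2 x - ev p.1 x‖ ^ 2 := by
  by_contra hc
  push Not at hc
  have h0 : 0 < ‖x‖ ^ 2 - ε := by
    have h := hc ∅ ⟨by simp, by simp⟩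
    simpa using h
  have h1 : ‖x‖ ≤ Real.sqrt (‖x‖ ^ 2 - ε) := by
    apply norm_le (Real.sqrt_nonneg _)
    intro F hF
    rw [Real.sq_sqrt h0.le]
    exact (hc F hF).le
  have h2 : ‖x‖ ^ 2 ≤ ‖x‖ ^ 2 - ε := by
    calc ‖x‖ ^ 2 ≤ (Real.sqrt (‖x‖ ^ 2 - ε)) ^ 2 := pow_le_pow_left₀ (norm_nonneg _) h1 2
      _ = _ := Real.sq_sqrt h0.le
  linarith

/-- lower 2-estimate for finitely many operators acting on disjoint sets of nodes -/
theorem lower_two {ι : Type*} (S : Finset ι) (x : V 𝕜) (y : ι → V 𝕜) (N : ι → Nd → Prop)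
    (hN : ∀ i ∈ S, ∀ j ∈ S, i ≠ j → ∀ t, ¬ (N i t ∧ N j t))
    (hy : ∀ i ∈ S, ∀ a b : Nd, a <:+ b → ∃ c d : Nd, c <:+ d ∧
      (∀ t, Inn t (c, d) → Inn t (a, b) ∧ N i t) ∧ ev b (y i) - ev a (y i) = ev d x - ev c x) :
    ∑ i ∈ S, ‖y i‖ ^ 2 ≤ ‖x‖ ^ 2 := by
  classical
  apply le_of_forall_pos_le_add
  intro ε hε
  set δ : ℝ := ε / (S.card + 1) with hδ
  have hδ0 : 0 < δ := by positivity
  have hF : ∀ i, ∃ F : Finset (Nd × Nd), Adm F ∧ ‖y i‖ ^ 2 - δ ≤ ∑ p ∈ F, ‖ev p.2 (y i) - ev p.1 (y i)‖ ^ 2 :=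
    fun i => exists_fam (y i) hδ0
  choose F hF1 hF2 using hF
  have hc : ∀ (i : ι) (p : Nd × Nd), ∃ q : Nd × Nd, i ∈ S → p.1 <:+ p.2 → (q.1 <:+ q.2 ∧
      (∀ t, Inn t q → Inn t p ∧ N i t) ∧ ev p.2 (y i) - ev p.1 (y i) = ev q.2 x - ev q.1 x) := by
    intro i p
    by_cases hi : i ∈ S
    · by_cases hp : p.1 <:+ p.2
      · obtain ⟨c, d, h1, h2, h3⟩ := hy i hi p.1 p.2 hp
        exact ⟨(c, d), fun _ _ => ⟨h1, h2, h3⟩⟩
      · exact ⟨p, fun _ h => absurd h hp⟩
    · exact ⟨p, fun h => absurd h hi⟩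
  choose q hq using hc
  have hmain : ∑ i ∈ S, ∑ p ∈ F i, ‖ev p.2 (y i) - ev p.1 (y i)‖ ^ 2 ≤ ‖x‖ ^ 2 := by
    have h1 : ∑ i ∈ S, ∑ p ∈ F i, ‖ev p.2 (y i) - ev p.1 (y i)‖ ^ 2
        = ∑ z ∈ S.sigma F, ‖ev (q z.1 z.2).2 x - ev (q z.1 z.2).1 x‖ ^ 2 := by
      rw [Finset.sum_sigma]
      apply Finset.sum_congr rfl
      intro i hi
      apply Finset.sum_congr rfl
      intro p hp
      rw [(hq i p hi ((hF1 i).1 p hp)).2.2]
    rw [h1]
    apply sum_le x (S.sigma F) (fun z => q z.1 z.2)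
    · rintro ⟨i, p⟩ hz
      rw [Finset.mem_sigma] at hz
      exact (hq i p hz.1 ((hF1 i).1 p hz.2)).1
    · rintro ⟨i, p⟩ hz ⟨j, p'⟩ hz' hne t ht
      rw [Finset.mem_sigma] at hz hz'
      have h2 := (hq i p hz.1 ((hF1 i).1 p hz.2)).2.1 t ht.1
      have h3 := (hq j p' hz'.1 ((hF1 j).1 p' hz'.2)).2.1 t ht.2
      by_cases hij : i = j
      · subst hij
        have hpp : p ≠ p' := fun h => hne (by rw [h])
        exact (hF1 i).2 p hz.2 p' hz'.2 hpp t ⟨h2.1, h3.1⟩
      · exact hN i hz.1 j hz'.1 hij t ⟨h2.2, h3.2⟩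
  have h4 : ∑ i ∈ S, ‖y i‖ ^ 2 ≤ ∑ i ∈ S, (∑ p ∈ F i, ‖ev p.2 (y i) - ev p.1 (y i)‖ ^ 2 + δ) :=
    Finset.sum_le_sum fun i _ => by linarith [hF2 i]
  rw [Finset.sum_add_distrib, Finset.sum_const, nsmul_eq_mul] at h4
  have h5 : (S.card : ℝ) * δ ≤ ε := by
    rw [hδ, mul_div_assoc', div_le_iff₀ (by positivity)]
    nlinarith [hε]
  linarith

/-- pairwise incomparable cones -/
theorem sum_RR_le (S : Finset Nd) (hS : ∀ s ∈ S, ∀ s' ∈ S, s ≠ s' → ¬ s <:+ s') (x : V 𝕜) :
    ∑ s ∈ S, ‖RR s x‖ ^ 2 ≤ ‖x‖ ^ 2 := by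
  apply lower_two S x (fun s => RR s x) (fun s t => s <:+ t)
  · intro s hs s' hs' hne t ht
    rcases suffix_total ht.1 ht.2 with h | h
    · exact hS s hs s' hs' hne h
    · exact hS s' hs' s hs hne.symm h
  · intro s _ a b hab
    by_cases hb : s <:+ b
    · by_cases ha : s <:+ a
      · refine ⟨a, b, hab, fun t ht => ⟨ht, ha.trans ht.1⟩, ?_⟩
        rw [ev_RR, ev_RR, if_pos hb, if_pos ha]
        ring
      · refine ⟨s, b, hb, ?_, ?_⟩
        · intro t ht
          refine ⟨?_, ht.1⟩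
          rw [inn_iff hb] at ht
          rw [inn_iff hab]
          refine ⟨ht.1, lt_of_le_of_lt ?_ ht.2⟩
          by_contra hlt
          push Not at hlt
          exact ha (suffix_of_le hb hab hlt.le)
        · rw [ev_RR, ev_RR, if_pos hb, if_neg ha, sub_zero]
    · have ha : ¬ s <:+ a := fun h => hb (h.trans hab)
      refine ⟨a, a, List.suffix_refl a, ?_, ?_⟩
      · rintro t ht
        rw [inn_iff (List.suffix_refl a)] at ht
        exact absurd ht.1.length_le (not_le.2 ht.2)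
      · rw [ev_RR, ev_RR, if_neg hb, if_neg ha, sub_self, sub_self]

theorem PQ_le (n : ℕ) (x : V 𝕜) : ‖PP n x‖ ^ 2 + ‖QQ n x‖ ^ 2 ≤ ‖x‖ ^ 2 := by
  let y : Bool → V 𝕜 := fun i => cond i (PP n x) (QQ n x)
  let N : Bool → Nd → Prop := fun i t => cond i (t.length ≤ n) (n < t.length)
  have hN : ∀ i ∈ (Finset.univ : Finset Bool), ∀ j ∈ (Finset.univ : Finset Bool), i ≠ j → ∀ t, ¬ (N i t ∧ N j t) := by
    intro i _ j _ hij t ht
    cases i with
    | true =>
      cases j with
      | true => exact hij rfl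
      | false =>
        have h1 : t.length ≤ n := ht.1
        have h2 : n < t.length := ht.2
        omega
    | false =>
      cases j with
      | true =>
        have h1 : t.length ≤ n := ht.2
        have h2 : n < t.length := ht.1
        omega
      | false => exact hij rfl
  have hy : ∀ i ∈ (Finset.univ : Finset Bool), ∀ a b : Nd, a <:+ b → ∃ c d : Nd, c <:+ d ∧
      (∀ t, Inn t (c, d) → Inn t (a, b) ∧ N i t) ∧ ev b (y i) - ev a (y i) = ev d x - ev c x := by
    intro i _ a b hab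
    cases i with
    | true =>
      refine ⟨tr n a, tr n b, tr_mono n hab, ?_, ?_⟩
      · intro t ht
        rw [inn_iff (tr_mono n hab)] at ht
        rw [inn_iff hab]
        have h1 := length_tr n a
        have h2 := length_tr n b
        have h3 := ht.1.length_le
        have h4 := ht.2
        refine ⟨⟨ht.1.trans (tr_suffix n b), by omega⟩, ?_⟩
        show t.length ≤ n
        omega
      · show ev b (PP n x) - ev a (PP n x) = _
        rw [ev_PP, ev_PP]
    | false =>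
      by_cases ha : n ≤ a.length
      · refine ⟨a, b, hab, fun t ht => ⟨ht, ?_⟩, ?_⟩
        · rw [inn_iff hab] at ht
          have := ht.2
          show n < t.length
          omega
        · show ev b (QQ n x) - ev a (QQ n x) = _
          rw [ev_QQ, ev_QQ, tr_eq_of_suffix hab ha]
          ring
      · push Not at ha
        refine ⟨tr n b, b, tr_suffix n b, ?_, ?_⟩
        · intro t ht
          rw [inn_iff (tr_suffix n b)] at ht
          rw [inn_iff hab]
          have h2 := length_tr n b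
          have h3 := ht.1.length_le
          have h4 := ht.2
          have h5 := hab.length_le
          refine ⟨⟨ht.1, by omega⟩, ?_⟩
          show n < t.length
          omega
        · show ev b (QQ n x) - ev a (QQ n x) = _
          rw [ev_QQ, ev_QQ, tr_of_le ha.le]
          ring
  have h := lower_two (Finset.univ : Finset Bool) x y N hN hy
  rw [Fintype.sum_bool] at h
  exact h

/-- the tails of an element tend to zero -/
theorem tendsto_QQ (x : V 𝕜) {ε : ℝ} (hε : 0 < ε) : ∃ N, ∀ n, N ≤ n → ‖QQ n x‖ ≤ ε := by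
  obtain ⟨F, hF, h1⟩ := exists_fam x (show 0 < ε ^ 2 by positivity)
  set N := F.sup (fun p => p.2.length) with hN
  refine ⟨N, fun n hn => ?_⟩
  have h2 : ∑ p ∈ F, ‖ev p.2 x - ev p.1 x‖ ^ 2 = ∑ p ∈ F, ‖ev p.2 (PP n x) - ev p.1 (PP n x)‖ ^ 2 := by
    apply Finset.sum_congr rfl
    intro p hp
    have h3 : p.2.length ≤ n := le_trans (Finset.le_sup (f := fun p : Nd × Nd => p.2.length) hp) hn
    have h4 : p.1.length ≤ n := (hF.1 p hp).length_le.trans h3
    rw [ev_PP, ev_PP, tr_of_le h3, tr_of_le h4]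
  have h3 := fam_le (PP n x) F hF
  have h4 := PQ_le n x
  exact lesq (by linarith) hε.le

theorem tendsto_QQ' (x : V 𝕜) : Tendsto (fun n => QQ n x) atTop (𝓝 0) := by
  rw [tendsto_zero_iff_norm_tendsto_zero, Metric.tendsto_atTop]
  intro ε hε
  obtain ⟨N, hN⟩ := tendsto_QQ x (half_pos hε)
  refine ⟨N, fun n hn => ?_⟩
  rw [Real.dist_eq, sub_zero, abs_of_nonneg (norm_nonneg _)]
  linarith [hN n hn]

theorem tendsto_PP (x : V 𝕜) : Tendsto (fun n => PP n x) atTop (𝓝 x) := by
  have h : (fun n => PP n x) = fun n => x - QQ n x := by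
    funext n
    rw [eq_sub_iff_add_eq]
    exact PP_add_QQ n x
  rw [h]
  simpa using (tendsto_const_nhds (x := x)).sub (tendsto_QQ' x)

/-! ### basis vectors -/

theorem exE (s : Nd) : ∃ x : V 𝕜, (∀ t, ev t x = if s <:+ t ∧ s ≠ [] then 1 else 0) ∧ ‖x‖ ≤ 1 := by
  classical
  apply exists_mk (fun t => if s <:+ t ∧ s ≠ [] then 1 else 0)
  · by_cases h : s <:+ []
    · rw [List.suffix_nil] at h
      simp [h]
    · simp [h]
  · exact zero_le_one
  · intro F hF
    by_cases hs : s = []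
    · simp [hs]
    have key : ∀ p ∈ F, ‖(if s <:+ p.2 ∧ s ≠ [] then (1 : 𝕜) else 0) - (if s <:+ p.1 ∧ s ≠ [] then 1 else 0)‖ ^ 2
        = if Inn s p then 1 else 0 := by
      intro p hp
      have hab := hF.1 p hp
      by_cases hb : s <:+ p.2
      · by_cases ha : s <:+ p.1
        · have hni : ¬ Inn s p := by
            intro h
            exact h.2.1 (ha.eq_of_length (le_antisymm ha.length_le h.1.length_le))
          rw [if_pos ⟨hb, hs⟩, if_pos ⟨ha, hs⟩, if_neg hni, sub_self, norm_zero]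
          norm_num
        · have hi : Inn s p := by
            have h1 : p.1 <:+ s := by
              rcases suffix_total hab hb with h | h
              · exact h
              · exact absurd h ha
            exact ⟨h1, fun h => ha (h ▸ List.suffix_refl _), hb⟩
          rw [if_pos ⟨hb, hs⟩, if_neg (fun h => ha h.1), if_pos hi]
          simp
      · have ha : ¬ s <:+ p.1 := fun h => hb (h.trans hab)
        have hni : ¬ Inn s p := fun h => hb h.2.2
        rw [if_neg (fun h => hb h.1), if_neg (fun h => ha h.1), if_neg hni, sub_self, norm_zero]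
        norm_num
    rw [Finset.sum_congr rfl key, Finset.sum_ite, Finset.sum_const, Finset.sum_const_zero, add_zero,
      nsmul_eq_mul, mul_one]
    have hc : (F.filter (fun p => Inn s p)).card ≤ 1 := by
      rw [Finset.card_le_one]
      intro p hp q hq
      by_contra hne
      rw [Finset.mem_filter] at hp hq
      exact hF.2 p hp.1 q hq.1 hne s ⟨hp.2, hq.2⟩
    have : ((F.filter (fun p => Inn s p)).card : ℝ) ≤ 1 := by exact_mod_cast hc
    simpa using this

/-- the basis vector of the node `s` (zero if `s` is the root) -/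
noncomputable def ee (s : Nd) : V 𝕜 := (exE s).choose
theorem ev_ee (s t : Nd) : ev t (ee s : V 𝕜) = if s <:+ t ∧ s ≠ [] then 1 else 0 := (exE s).choose_spec.1 t
theorem ee_le (s : Nd) : ‖(ee s : V 𝕜)‖ ≤ 1 := (exE s).choose_spec.2

/-- the nodes of level `n` -/
noncomputable def lev (n : ℕ) : Finset Nd :=
  (Finset.univ : Finset (List.Vector Bool n)).image (fun v => v.toList)

theorem mem_lev {n : ℕ} {s : Nd} : s ∈ lev n ↔ s.length = n := by
  unfold lev
  rw [Finset.mem_image]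
  constructor
  · rintro ⟨v, _, rfl⟩
    exact v.toList_length
  · intro h
    exact ⟨⟨s, h⟩, Finset.mem_univ _, rfl⟩

theorem card_lev (n : ℕ) : (lev n).card = 2 ^ n := by
  unfold lev
  rw [Finset.card_image_of_injective _ (fun v w h => List.Vector.toList_injective h), Finset.card_univ,
    card_vector, Fintype.card_bool]

theorem PP_zero (x : V 𝕜) : PP 0 x = 0 := by
  apply ext_ev
  intro t
  rw [ev_PP, map_zero]
  have : tr 0 t = [] := by
    apply List.length_eq_zero_iff.1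
    rw [length_tr]
    simp
  rw [this, ev_nil]

theorem tail_tr (n : ℕ) {t : Nd} (h : n < t.length) : (tr (n + 1) t).tail = tr n t := by
  unfold tr
  rw [List.tail_drop]
  congr 1
  omega

theorem PP_succ (n : ℕ) (x : V 𝕜) :
    PP (n + 1) x = PP n x + ∑ s ∈ lev (n + 1), (ev s x - ev s.tail x) • (ee s : V 𝕜) := by
  apply ext_ev
  intro t
  rw [map_add, map_sum, ev_PP, ev_PP]
  have h1 : ∀ s ∈ lev (n + 1), ev t ((ev s x - ev s.tail x) • (ee s : V 𝕜))
      = if s <:+ t then (ev s x - ev s.tail x) else 0 := by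
    intro s hs
    rw [mem_lev] at hs
    have hs' : s ≠ [] := by
      rintro rfl
      simp at hs
    rw [map_smul, ev_ee, smul_eq_mul]
    by_cases h : s <:+ t
    · rw [if_pos ⟨h, hs'⟩, if_pos h, mul_one]
    · rw [if_neg (fun h' => h h'.1), if_neg h, mul_zero]
  rw [Finset.sum_congr rfl h1]
  by_cases ht : t.length ≤ n
  · rw [tr_of_le ht, tr_of_le (ht.trans (Nat.le_succ n))]
    rw [Finset.sum_eq_zero]
    · ring
    · intro s hs
      rw [mem_lev] at hs
      rw [if_neg]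
      intro h
      have := h.length_le
      omega
  · push Not at ht
    rw [Finset.sum_eq_single (tr (n + 1) t)]
    · rw [if_pos (tr_suffix _ _), tail_tr n ht]
      ring
    · intro s hs hne
      rw [mem_lev] at hs
      rw [if_neg]
      intro h
      apply hne
      apply eq_of_suffix_length h (tr_suffix _ _)
      rw [hs, length_tr]
      omega
    · intro h
      exfalso
      apply h
      rw [mem_lev, length_tr]
      omega

/-- an operator with small values on the basis is small -/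
theorem norm_le_of_basis {Y : Type*} [NormedAddCommGroup Y] [NormedSpace 𝕜 Y] (T : V 𝕜 →L[𝕜] Y) (c : ℕ → ℝ) (θ : ℝ)
    (h : ∀ s : Nd, s ≠ [] → ‖T (ee s)‖ ≤ c s.length)
    (hc : ∀ N, ∑ n ∈ Finset.range N, 2 ^ (n + 1) * c (n + 1) ≤ θ) (x : V 𝕜) : ‖T x‖ ≤ θ * ‖x‖ := by
  have h1 : ∀ N, ‖T (PP N x)‖ ≤ (∑ n ∈ Finset.range N, 2 ^ (n + 1) * c (n + 1)) * ‖x‖ := by
    intro N
    induction N with
    | zero => simp [PP_zero]
    | succ N ih =>
      rw [PP_succ, map_add, map_sum, Finset.sum_range_succ, add_mul]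
      refine (norm_add_le _ _).trans (add_le_add ih ?_)
      refine (norm_sum_le _ _).trans ?_
      have h2 : ∀ s ∈ lev (N + 1), ‖T ((ev s x - ev s.tail x) • (ee s : V 𝕜))‖ ≤ ‖x‖ * c (N + 1) := by
        intro s hs
        rw [mem_lev] at hs
        have hs' : s ≠ [] := by
          rintro rfl
          simp at hs
        rw [map_smul, norm_smul]
        have h3 : ‖ev s x - ev s.tail x‖ ≤ ‖x‖ := path_le x (List.tail_suffix s)
        have h4 := h s hs'
        rw [hs] at h4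
        exact mul_le_mul h3 h4 (norm_nonneg _) (norm_nonneg _)
      refine (Finset.sum_le_sum h2).trans ?_
      rw [Finset.sum_const, card_lev, nsmul_eq_mul]
      push_cast
      linarith
  have h2 : Tendsto (fun N => ‖T (PP N x)‖) atTop (𝓝 ‖T x‖) :=
    ((T.continuous.tendsto x).comp (tendsto_PP x)).norm
  refine le_of_tendsto h2 (Filter.Eventually.of_forall fun N => (h1 N).trans ?_)
  exact mul_le_mul_of_nonneg_right (hc N) (norm_nonneg _)

theorem ext_ee {T T' : V 𝕜 →L[𝕜] V 𝕜} (h : ∀ s : Nd, s ≠ [] → T (ee s) = T' (ee s)) : T = T' := by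
  ext1 x
  have h1 := norm_le_of_basis (T - T') (fun _ => 0) 0 (by
    intro s hs
    rw [_root_.sub_apply, h s hs, sub_self, norm_zero]) (by intro N; simp) x
  rw [zero_mul] at h1
  have h2 := norm_le_zero_iff.1 h1
  rw [_root_.sub_apply, sub_eq_zero] at h2
  exact h2

/-- composition operators -/
theorem exists_comp (ρ : Nd → Nd) (hmono : ∀ a b : Nd, a <:+ b → ρ a <:+ ρ b)
    (hdis : ∀ a b a' b' : Nd, a <:+ b → a' <:+ b' → (∀ t, ¬ (Inn t (a, b) ∧ Inn t (a', b'))) →
      ∀ t, ¬ (Inn t (ρ a, ρ b) ∧ Inn t (ρ a', ρ b'))) :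
    ∃ T : V 𝕜 →L[𝕜] V 𝕜, (∀ x t, ev t (T x) = ev (ρ t) x - ev (ρ []) x) ∧ ∀ x, ‖T x‖ ≤ ‖x‖ := by
  let Θ : (Nd → 𝕜) →ₗ[𝕜] (Nd → 𝕜) :=
    { toFun := fun f t => f (ρ t) - f (ρ [])
      map_add' := by
        intro f g
        funext t
        simp only [Pi.add_apply]
        ring
      map_smul' := by
        intro c f
        funext t
        simp only [Pi.smul_apply, smul_eq_mul, RingHom.id_apply]
        ring }
  obtain ⟨T, h1, h2⟩ := exists_op Θ (fun f _ => sub_self _) (C := 1) zero_le_one (by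
    intro x F hF
    rw [one_mul]
    have h3 := sum_le x F (fun p => (ρ p.1, ρ p.2)) (fun p hp => hmono _ _ (hF.1 p hp))
      (fun p hp q hq hne => hdis p.1 p.2 q.1 q.2 (hF.1 p hp) (hF.1 q hq) (hF.2 p hp q hq hne))
    refine le_trans (le_of_eq ?_) h3
    apply Finset.sum_congr rfl
    intro p _
    show ‖(ev (ρ p.2) x - ev (ρ []) x) - (ev (ρ p.1) x - ev (ρ []) x)‖ ^ 2 = _
    congr 2
    ring)
  exact ⟨T, h1, fun x => by simpa using h2 x⟩

end Pool.Agent.H585R4.JT
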