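import Pool.Agent.H585R4.JT.Sep
import Pool.Agent.H108R4.JT585.Nested

set_option autoImplicit false
open Filter Topology Finset
open scoped ENNReal

namespace Pool.Agent.H585R4.JT

/-- the parallelogram law on the annihilator of the predual -/
def Par (𝕜 : Type) [RCLike 𝕜] : Prop := ∀ z w : StrongDual 𝕜 (StrongDual 𝕜 (V 𝕜)),
  (∀ s : Nd, z (ev s) = 0) → (∀ s : Nd, w (ev s) = 0) →
  ‖z + w‖ ^ 2 + ‖z - w‖ ^ 2 = 2 * (‖z‖ ^ 2 + ‖w‖ ^ 2)

variable {𝕜 : Type} [RCLike 𝕜]

theorem ev_nil_eq : (ev ([] : Nd) : V 𝕜 →L[𝕜] 𝕜) = 0 := by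
  ext x
  rw [ev_nil]
  rfl

/-- the space is the dual of the closed span of the evaluations -/
theorem rep (z : StrongDual 𝕜 (StrongDual 𝕜 (V 𝕜))) : ∃ x : V 𝕜, ∀ s : Nd, ev s x = z (ev s) := by
  obtain ⟨x, hx, -⟩ := exists_mk (𝕜 := 𝕜) (fun s => z (ev s)) (by
    show z (ev []) = 0
    rw [ev_nil_eq, map_zero]) (norm_nonneg z) (by
    intro F hF
    set A := ∑ p ∈ F, ‖z (ev p.2) - z (ev p.1)‖ ^ 2 with hA
    have hA0 : 0 ≤ A := Finset.sum_nonneg fun _ _ => by positivity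
    let w : Nd × Nd → 𝕜 := fun p => z (ev p.2) - z (ev p.1)
    let g : StrongDual 𝕜 (V 𝕜) := ∑ p ∈ F, (starRingEnd 𝕜 (w p)) • (ev p.2 - ev p.1)
    have h1 : z g = ((A : ℝ) : 𝕜) := by
      show z (∑ p ∈ F, (starRingEnd 𝕜 (w p)) • (ev p.2 - ev p.1)) = _
      rw [map_sum, hA]
      push_cast
      apply Finset.sum_congr rfl
      intro p _
      rw [map_smul, smul_eq_mul, show z (ev p.2 - ev p.1) = w p from map_sub z _ _]
      exact RCLike.conj_mul (w p)
    have h2 : ‖g‖ ≤ Real.sqrt A := by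
      apply ContinuousLinearMap.opNorm_le_bound _ (Real.sqrt_nonneg _)
      intro x
      have h3 : g x = ∑ p ∈ F, (starRingEnd 𝕜 (w p)) * (ev p.2 x - ev p.1 x) := by
        show (∑ p ∈ F, (starRingEnd 𝕜 (w p)) • (ev p.2 - ev p.1 : V 𝕜 →L[𝕜] 𝕜)) x = _
        rw [_root_.sum_apply]
        rfl
      rw [h3]
      refine (norm_sum_le _ _).trans ?_
      have h4 : ∀ p ∈ F, ‖(starRingEnd 𝕜 (w p)) * (ev p.2 x - ev p.1 x)‖ = ‖w p‖ * ‖ev p.2 x - ev p.1 x‖ := by
        intro p _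
        rw [norm_mul, RCLike.norm_conj]
      rw [Finset.sum_congr rfl h4]
      have h5 := Finset.sum_mul_sq_le_sq_mul_sq F (fun p => ‖w p‖) (fun p => ‖ev p.2 x - ev p.1 x‖)
      have h6 := fam_le x F hF
      apply lesq _ (by positivity)
      rw [mul_pow, Real.sq_sqrt hA0]
      exact h5.trans (mul_le_mul_of_nonneg_left h6 hA0)
    have h7 : A ≤ ‖z‖ * Real.sqrt A := by
      have h8 := z.le_opNorm g
      rw [h1, RCLike.norm_ofReal, abs_of_nonneg hA0] at h8
      exact h8.trans (mul_le_mul_of_nonneg_left h2 (norm_nonneg _))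
    rcases eq_or_lt_of_le hA0 with h9 | h9
    · rw [← h9]
      positivity
    · have h10 : 0 < Real.sqrt A := Real.sqrt_pos.2 h9
      have h11 : Real.sqrt A ≤ ‖z‖ := by
        have h12 : Real.sqrt A * Real.sqrt A ≤ ‖z‖ * Real.sqrt A := by
          rw [Real.mul_self_sqrt hA0]
          exact h7
        exact le_of_mul_le_mul_right h12 h10
      calc A = Real.sqrt A ^ 2 := (Real.sq_sqrt hA0).symm
        _ ≤ ‖z‖ ^ 2 := pow_le_pow_left₀ h10.le h11 2)
  exact ⟨x, hx⟩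

theorem case_two {X : Type} [NormedAddCommGroup X] [NormedSpace 𝕜 X] [CompleteSpace X] (Z : Submodule 𝕜 X)
    (hZ : IsClosed (Z : Set X)) (hpar : ∀ z ∈ Z, ∀ w ∈ Z, ‖z + w‖ ^ 2 + ‖z - w‖ ^ 2 = 2 * (‖z‖ ^ 2 + ‖w‖ ^ 2))
    (φ : Z ≃L[𝕜] X) (jj : V 𝕜 →L[𝕜] X) (hj : ∀ v, ‖jj v‖ = ‖v‖) : False := by
  have hjj : Isometry jj := AddMonoidHomClass.isometry_of_norm jj hj
  letI instV : NormedSpace ℝ (V 𝕜) := NormedSpace.restrictScalars ℝ 𝕜 (V 𝕜)
  letI instZ : NormedSpace ℝ Z := NormedSpace.restrictScalars ℝ 𝕜 Z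
  haveI : CompleteSpace Z := hZ.completeSpace_coe
  have smulV : ∀ (r : ℝ) (x : V 𝕜), r • x = (r : 𝕜) • x := fun r x => rfl
  have smulZ : ∀ (r : ℝ) (x : Z), r • x = (r : 𝕜) • x := fun r x => rfl
  let γ : ℕ → Bool := fun _ => false
  let E : ℕ → Set (V 𝕜) := fun n => {x | ∃ m, n ≤ m ∧ x = ee (bn γ (m + 1))}
  let D : ℕ → Set (V 𝕜) := fun n => closure (convexHull ℝ (E n))
  have hDconv : ∀ n, Convex ℝ (D n) := fun n => (convex_convexHull ℝ (E n)).closure
  let K : ℕ → Set Z := fun n => {z | ∃ v ∈ D n, φ z = jj v}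
  have hE : ∀ n, ee (bn γ (n + 1)) ∈ D n := fun n =>
    subset_closure (subset_convexHull ℝ _ ⟨n, le_rfl, rfl⟩)
  have hball : ∀ n, ∀ v ∈ D n, ‖v‖ ≤ 1 := by
    intro n v hv
    have h1 : D n ⊆ Metric.closedBall 0 1 := by
      apply closure_minimal _ Metric.isClosed_closedBall
      apply convexHull_min _ (convex_closedBall (0 : V 𝕜) 1)
      rintro x ⟨m, -, rfl⟩
      rw [mem_closedBall_zero_iff]
      exact ee_le _
    have := h1 hv
    rwa [mem_closedBall_zero_iff] at this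
  obtain ⟨z, hz⟩ := Pool.Agent.H108R4.JT585.nested (Z := Z)
    (fun x y => hpar x.1 x.2 y.1 y.2) K
    (by
      rintro n x ⟨v, hv, hxv⟩ y ⟨w, hw, hyw⟩ a b ha hb hab
      refine ⟨a • v + b • w, hDconv n hv hw ha hb hab, ?_⟩
      rw [smulZ, smulZ, smulV, smulV, map_add, map_add, map_smul, map_smul, map_smul, map_smul, hxv, hyw])
    (by
      intro n
      have h1 : K n = φ ⁻¹' (jj '' (D n)) := by
        ext x
        constructor
        · rintro ⟨v, hv, h⟩
          exact ⟨v, hv, h.symm⟩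
        · rintro ⟨v, hv, h⟩
          exact ⟨v, hv, h.symm⟩
      rw [h1]
      exact (hjj.isClosedEmbedding.isClosedMap _ isClosed_closure).preimage φ.continuous)
    (by
      intro n
      refine ⟨φ.symm (jj (ee (bn γ (n + 1)))), ee (bn γ (n + 1)), hE n, ?_⟩
      rw [φ.apply_symm_apply])
    (by
      rintro n x ⟨v, hv, h⟩
      refine ⟨v, ?_, h⟩
      apply closure_mono _ hv
      apply convexHull_mono
      rintro y ⟨m, hm, rfl⟩
      exact ⟨m, by omega, rfl⟩)
    (‖(φ.symm : X →L[𝕜] Z)‖ * 1)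
    (by
      rintro x ⟨v, hv, h⟩
      have h1 : x = (φ.symm : X →L[𝕜] Z) (jj v) := by
        show x = φ.symm (jj v)
        rw [← h, φ.symm_apply_apply]
      rw [h1]
      refine (ContinuousLinearMap.le_opNorm _ _).trans (mul_le_mul_of_nonneg_left ?_ (norm_nonneg _))
      rw [hj]
      exact hball 0 v hv)
  obtain ⟨v, hv0, hzv⟩ := hz 0
  have hvD : ∀ n, v ∈ D n := by
    intro n
    obtain ⟨v', hv', hz'⟩ := hz n
    have : v = v' := hjj.injective (hzv.symm.trans hz')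
    rwa [this]
  have hval : ∀ (g : V 𝕜 →L[𝕜] 𝕜) (c : 𝕜) (n : ℕ), (∀ x ∈ E n, g x = c) → g v = c := by
    intro g c n hg
    have h1 : D n ⊆ {x | g x = c} := by
      apply closure_minimal
      · apply convexHull_min hg
        intro x hx y hy a b _ _ hab
        show g (a • x + b • y) = c
        have hx' : g x = c := hx
        have hy' : g y = c := hy
        rw [smulV, smulV, map_add, map_smul, map_smul, hx', hy', ← add_smul]
        have : ((a : 𝕜) + (b : 𝕜)) = 1 := by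
          rw [← RCLike.ofReal_add, hab, RCLike.ofReal_one]
        rw [this, one_smul]
      · exact isClosed_eq g.continuous continuous_const
    exact h1 (hvD n)
  have hv : v = 0 := by
    apply ext_ev
    intro t
    rw [map_zero]
    apply hval (ev t) 0 t.length
    rintro x ⟨m, hm, rfl⟩
    rw [ev_ee, if_neg]
    rintro ⟨h1, -⟩
    have := h1.length_le
    rw [length_bn] at this
    omega
  have h1 : (bb γ : StrongDual 𝕜 (V 𝕜)) v = 1 := by
    apply hval (bb γ) 1 0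
    rintro x ⟨m, -, rfl⟩
    exact bb_ee_self γ (m + 1) (by omega)
  rw [hv, map_zero] at h1
  exact zero_ne_one h1

theorem outer_abs {X : Type} [NormedAddCommGroup X] [NormedSpace 𝕜 X] [CompleteSpace X]
    (jj : V 𝕜 →L[𝕜] X) (hj : ∀ v, ‖jj v‖ = ‖v‖) (r : Nd → X →L[𝕜] 𝕜) (hr : ∀ s v, r s (jj v) = ev s v)
    (hrep : ∀ z : X, ∃ v : V 𝕜, ∀ s, ev s v = r s z) (hsep : ¬ TopologicalSpace.SeparableSpace X)
    (hpar : ∀ z w : X, (∀ s, r s z = 0) → (∀ s, r s w = 0) →
      ‖z + w‖ ^ 2 + ‖z - w‖ ^ 2 = 2 * (‖z‖ ^ 2 + ‖w‖ ^ 2)) : ¬ IsPrimary 𝕜 X := by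
  have hjj : Isometry jj := AddMonoidHomClass.isometry_of_norm jj hj
  let Y : Submodule 𝕜 X := LinearMap.range jj.toLinearMap
  let Z : Submodule 𝕜 X :=
    { carrier := {z | ∀ s : Nd, r s z = 0}
      add_mem' := by
        intro a b ha hb s
        rw [map_add, ha s, hb s, add_zero]
      zero_mem' := fun _ => map_zero _
      smul_mem' := by
        intro c a ha s
        rw [map_smul, ha s, smul_zero] }
  have hZc : IsClosed (Z : Set X) := by
    have : (Z : Set X) = ⋂ s : Nd, {z | r s z = 0} := by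
      ext z
      simp only [Set.mem_iInter, Set.mem_ofPred_eq]
      rfl
    rw [this]
    exact isClosed_iInter fun s => isClosed_eq (r s).continuous continuous_const
  have hYc : IsClosed (Y : Set X) := by
    have h2 : (Y : Set X) = Set.range jj := Set.ext fun z => Iff.rfl
    rw [h2]
    exact hjj.isClosedEmbedding.isClosed_range
  have hYZ : IsCompl Y Z := by
    constructor
    · rw [Submodule.disjoint_def]
      rintro z ⟨x, rfl⟩ hz
      have : x = 0 := by
        apply ext_ev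
        intro t
        rw [map_zero, ← hr]
        exact hz t
      rw [this, map_zero]
    · rw [codisjoint_iff, Submodule.eq_top_iff']
      intro z
      obtain ⟨x, hx⟩ := hrep z
      rw [Submodule.mem_sup]
      refine ⟨jj x, ⟨x, rfl⟩, z - jj x, ?_, by abel⟩
      intro s
      rw [map_sub, hr, hx, sub_self]
  rintro ⟨-, h⟩
  rcases h Y Z hYc hZc hYZ with ⟨⟨φ⟩⟩ | ⟨⟨φ⟩⟩
  · apply hsep
    haveI : TopologicalSpace.SeparableSpace (V 𝕜) := sepV
    let q : V 𝕜 → X := fun x => φ ⟨jj x, ⟨x, rfl⟩⟩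
    have hq : Continuous q := by
      apply φ.continuous.comp
      exact Continuous.subtype_mk jj.continuous _
    have hs : Function.Surjective q := by
      intro w
      obtain ⟨x, hx⟩ := (φ.symm w).2
      refine ⟨x, ?_⟩
      show φ ⟨jj x, _⟩ = w
      have : (⟨jj x, ⟨x, rfl⟩⟩ : Y) = φ.symm w := Subtype.ext hx
      rw [this, φ.apply_symm_apply]
    exact hs.denseRange.separableSpace hq
  · exact case_two Z hZc (fun z hz w hw => hpar z w hz hw) φ jj hj

theorem taskE_of_par (hpar : Par 𝕜) : ¬ IsPrimary 𝕜 (StrongDual 𝕜 (StrongDual 𝕜 (V 𝕜))) := by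
  apply outer_abs (X := StrongDual 𝕜 (StrongDual 𝕜 (V 𝕜))) (NormedSpace.inclusionInDoubleDual 𝕜 (V 𝕜))
    (fun v => (NormedSpace.inclusionInDoubleDualLi (𝕜 := 𝕜) (E := V 𝕜)).norm_map v)
    (fun s => ContinuousLinearMap.apply 𝕜 𝕜 (ev s : StrongDual 𝕜 (V 𝕜)))
    (fun s v => rfl) (fun z => rep z) not_sep
  intro z w hz hw
  exact hpar z w hz hw

end Pool.Agent.H585R4.JT
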