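import Pool.Agent.H585R4.JT.Fuse1

set_option autoImplicit false
open Filter Topology Finset
open scoped ENNReal

namespace Pool.Agent.H585R4.JT

variable {𝕜 : Type} [RCLike 𝕜]

theorem length_bn (γ : ℕ → Bool) (n : ℕ) : (bn γ n).length = n := by
  induction n with
  | zero => rfl
  | succ n ih =>
    show (γ n :: bn γ n).length = n + 1
    rw [List.length_cons, ih]

theorem bn_ne_nil (γ : ℕ → Bool) (n : ℕ) (hn : n ≠ 0) : bn γ n ≠ [] := by
  intro h
  have := length_bn γ n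
  rw [h] at this
  exact hn this.symm

theorem bn_suffix (γ : ℕ → Bool) {m n : ℕ} (h : m ≤ n) : bn γ m <:+ bn γ n := by
  induction n, h using Nat.le_induction with
  | base => exact List.suffix_refl _
  | succ n _ ih => exact ih.trans (List.suffix_cons _ _)

theorem bn_ne {γ δ : ℕ → Bool} (h : γ ≠ δ) : ∃ N, ∀ n, N ≤ n → ∀ m, N ≤ m → ¬ bn γ n <:+ bn δ m := by
  obtain ⟨k, hk⟩ := Function.ne_iff.1 h
  refine ⟨k + 1, fun n hn m hm hs => hk ?_⟩
  have h1 : bn γ (k + 1) <:+ bn δ m := (bn_suffix γ hn).trans hs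
  have h2 : bn δ (k + 1) <:+ bn δ m := bn_suffix δ hm
  have h3 := eq_of_suffix_length h1 h2 (by rw [length_bn, length_bn])
  have h4 : (γ k :: bn γ k) = (δ k :: bn δ k) := h3
  rw [List.cons.injEq] at h4
  exact h4.1

theorem sepV : TopologicalSpace.SeparableSpace (V 𝕜) := by
  have h1 : (Set.range (fun s : Nd => (ee s : V 𝕜))).Countable := Set.countable_range _
  have h2 : TopologicalSpace.IsSeparable (Submodule.span 𝕜 (Set.range (fun s : Nd => (ee s : V 𝕜))) : Set (V 𝕜)) :=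
    h1.isSeparable.span
  have h3 : closure (Submodule.span 𝕜 (Set.range (fun s : Nd => (ee s : V 𝕜))) : Set (V 𝕜)) = Set.univ := by
    rw [Set.eq_univ_iff_forall]
    intro x
    apply mem_closure_of_tendsto (tendsto_PP x)
    apply Filter.Eventually.of_forall
    intro n
    show PP n x ∈ Submodule.span 𝕜 (Set.range (fun s : Nd => (ee s : V 𝕜)))
    induction n with
    | zero =>
      rw [PP_zero]
      exact Submodule.zero_mem _
    | succ n ih =>
      rw [PP_succ]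
      apply Submodule.add_mem _ ih
      apply Submodule.sum_mem
      intro s _
      exact Submodule.smul_mem _ _ (Submodule.subset_span ⟨s, rfl⟩)
  have h4 : TopologicalSpace.IsSeparable (Set.univ : Set (V 𝕜)) := by
    rw [← h3]
    exact h2.closure
  exact TopologicalSpace.isSeparable_univ_iff.1 h4

/-- the branch functional as an element of the dual: the limit of the values along the branch -/
theorem exB (γ : ℕ → Bool) : ∃ b : V 𝕜 →L[𝕜] 𝕜, ∀ x, Tendsto (fun n => ev (bn γ n) x) atTop (𝓝 (b x)) := by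
  have hc : ∀ x : V 𝕜, CauchySeq (fun n => ev (bn γ n) x) := by
    intro x
    rw [Metric.cauchySeq_iff']
    intro ε hε
    obtain ⟨N, hN⟩ := tendsto_QQ x (half_pos hε)
    refine ⟨N, fun n hn => ?_⟩
    rw [dist_eq_norm]
    have h1 := ev_sub_RR (bn_suffix γ hn) x
    have h2 := RR_le_QQ (n := N) (by rw [length_bn]) x (s := bn γ N)
    have h3 := hN N le_rfl
    linarith
  choose b hb using fun x => cauchySeq_tendsto_of_complete (hc x)
  let L : V 𝕜 →ₗ[𝕜] 𝕜 :=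
    { toFun := b
      map_add' := by
        intro x y
        apply tendsto_nhds_unique (hb (x + y))
        simpa using (hb x).add (hb y)
      map_smul' := by
        intro c x
        apply tendsto_nhds_unique (hb (c • x))
        simpa using (hb x).const_mul c }
  refine ⟨L.mkContinuous 1 (fun x => ?_), hb⟩
  rw [one_mul]
  exact le_of_tendsto (hb x).norm (Filter.Eventually.of_forall fun n => ev_le x _)

noncomputable def bb (γ : ℕ → Bool) : StrongDual 𝕜 (V 𝕜) := (exB γ).choose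

theorem tendsto_bb (γ : ℕ → Bool) (x : V 𝕜) : Tendsto (fun n => ev (bn γ n) x) atTop (𝓝 (bb γ x)) :=
  (exB γ).choose_spec x

theorem bb_le (γ : ℕ → Bool) (x : V 𝕜) : ‖bb γ x‖ ≤ ‖x‖ :=
  le_of_tendsto (tendsto_bb γ x).norm (Filter.Eventually.of_forall fun n => ev_le x _)

theorem bb_norm_le (γ : ℕ → Bool) : ‖(bb γ : StrongDual 𝕜 (V 𝕜))‖ ≤ 1 :=
  ContinuousLinearMap.opNorm_le_bound _ zero_le_one fun x => by rw [one_mul]; exact bb_le γ x

/-- limits along an ultrafilter -/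
theorem exLam (γ : ℕ → Bool) : ∃ L : StrongDual 𝕜 (StrongDual 𝕜 (V 𝕜)),
    ∀ f : StrongDual 𝕜 (V 𝕜), Tendsto (fun n => f (ee (bn γ n))) (hyperfilter ℕ) (𝓝 (L f)) := by
  have hb : ∀ (f : StrongDual 𝕜 (V 𝕜)) n, ‖f (ee (bn γ n))‖ ≤ ‖f‖ := fun f n =>
    (f.le_opNorm _).trans (by
      calc ‖f‖ * ‖(ee (bn γ n) : V 𝕜)‖ ≤ ‖f‖ * 1 := mul_le_mul_of_nonneg_left (ee_le _) (norm_nonneg _)
        _ = ‖f‖ := mul_one _)
  have hex : ∀ f : StrongDual 𝕜 (V 𝕜), ∃ a, Tendsto (fun n => f (ee (bn γ n))) (hyperfilter ℕ) (𝓝 a) := by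
    intro f
    have h1 : ∀ᶠ z in (Filter.map (fun n => f (ee (bn γ n))) (hyperfilter ℕ : Filter ℕ)), z ∈ Metric.closedBall (0 : 𝕜) ‖f‖ := by
      rw [Filter.eventually_map]
      apply Filter.Eventually.of_forall
      intro n
      rw [mem_closedBall_zero_iff]
      exact hb f n
    obtain ⟨a, -, ha⟩ := (isCompact_closedBall (0 : 𝕜) ‖f‖).ultrafilter_le_nhds
      ((hyperfilter ℕ).map (fun n => f (ee (bn γ n)))) (by
        rw [Filter.le_principal_iff]
        exact h1)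
    exact ⟨a, ha⟩
  choose L hL using hex
  let L' : StrongDual 𝕜 (V 𝕜) →ₗ[𝕜] 𝕜 :=
    { toFun := L
      map_add' := by
        intro f g
        apply tendsto_nhds_unique (hL (f + g))
        simpa using (hL f).add (hL g)
      map_smul' := by
        intro c f
        apply tendsto_nhds_unique (hL (c • f))
        simpa using (hL f).const_mul c }
  refine ⟨L'.mkContinuous 1 (fun f => ?_), hL⟩
  rw [one_mul]
  exact le_of_tendsto (hL f).norm (Filter.Eventually.of_forall fun n => hb f n)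

noncomputable def Lam (γ : ℕ → Bool) : StrongDual 𝕜 (StrongDual 𝕜 (V 𝕜)) := (exLam γ).choose

theorem tendsto_Lam (γ : ℕ → Bool) (f : StrongDual 𝕜 (V 𝕜)) :
    Tendsto (fun n => f (ee (bn γ n))) (hyperfilter ℕ) (𝓝 (Lam γ f)) := (exLam γ).choose_spec f

theorem hyper_eventually_ge (N : ℕ) : ∀ᶠ n in (hyperfilter ℕ : Filter ℕ), N ≤ n := by
  have h1 : (hyperfilter ℕ : Filter ℕ) ≤ atTop := by
    rw [← Nat.cofinite_eq_atTop]
    exact hyperfilter_le_cofinite
  exact h1 (eventually_ge_atTop N)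

theorem bb_ee_self (γ : ℕ → Bool) (n : ℕ) (hn : n ≠ 0) : (bb γ : StrongDual 𝕜 (V 𝕜)) (ee (bn γ n)) = 1 := by
  apply tendsto_nhds_unique (tendsto_bb γ (ee (bn γ n)))
  apply tendsto_const_nhds.congr'
  filter_upwards [eventually_ge_atTop n] with m hm
  rw [ev_ee, if_pos ⟨bn_suffix γ hm, bn_ne_nil γ n hn⟩]

theorem bb_ee_zero (γ : ℕ → Bool) (s : Nd) (hs : ∃ N, ∀ m, N ≤ m → ¬ s <:+ bn γ m) :
    (bb γ : StrongDual 𝕜 (V 𝕜)) (ee s) = 0 := by
  obtain ⟨N, hN⟩ := hs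
  apply tendsto_nhds_unique (tendsto_bb γ (ee s))
  apply tendsto_const_nhds.congr'
  filter_upwards [eventually_ge_atTop N] with m hm
  rw [ev_ee, if_neg (fun h => hN m hm h.1)]

theorem Lam_bb_self (γ : ℕ → Bool) : (Lam γ : StrongDual 𝕜 (StrongDual 𝕜 (V 𝕜))) (bb γ) = 1 := by
  apply tendsto_nhds_unique (tendsto_Lam γ (bb γ))
  apply tendsto_const_nhds.congr'
  filter_upwards [hyper_eventually_ge 1] with m hm
  rw [bb_ee_self γ m (by omega)]

theorem Lam_bb_ne {γ δ : ℕ → Bool} (h : γ ≠ δ) : (Lam γ : StrongDual 𝕜 (StrongDual 𝕜 (V 𝕜))) (bb δ) = 0 := by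
  apply tendsto_nhds_unique (tendsto_Lam γ (bb δ))
  apply tendsto_const_nhds.congr'
  obtain ⟨N, hN⟩ := bn_ne h
  filter_upwards [hyper_eventually_ge N] with m hm
  rw [bb_ee_zero δ (bn γ m) ⟨N, fun k hk => hN m hm k hk⟩]

theorem Lam_ev (γ : ℕ → Bool) (s : Nd) : (Lam γ : StrongDual 𝕜 (StrongDual 𝕜 (V 𝕜))) (ev s) = 0 := by
  apply tendsto_nhds_unique (tendsto_Lam γ (ev s))
  apply tendsto_const_nhds.congr'
  filter_upwards [hyper_eventually_ge (s.length + 1)] with m hm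
  rw [ev_ee, if_neg]
  rintro ⟨h, -⟩
  have := h.length_le
  rw [length_bn] at this
  omega

theorem Lam_dist {γ δ : ℕ → Bool} (h : γ ≠ δ) :
    1 ≤ ‖(Lam γ : StrongDual 𝕜 (StrongDual 𝕜 (V 𝕜))) - Lam δ‖ := by
  have h1 : (Lam γ - Lam δ : StrongDual 𝕜 (StrongDual 𝕜 (V 𝕜))) (bb γ) = 1 := by
    have e : (Lam γ - Lam δ : StrongDual 𝕜 (StrongDual 𝕜 (V 𝕜))) (bb γ)
      = (Lam γ : StrongDual 𝕜 (StrongDual 𝕜 (V 𝕜))) (bb γ) - (Lam δ : StrongDual 𝕜 (StrongDual 𝕜 (V 𝕜))) (bb γ) := rfl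
    rw [e, Lam_bb_self, Lam_bb_ne (Ne.symm h), sub_zero]
  have h2 := (Lam γ - Lam δ : StrongDual 𝕜 (StrongDual 𝕜 (V 𝕜))).le_opNorm (bb γ)
  rw [h1, norm_one] at h2
  calc (1 : ℝ) ≤ ‖(Lam γ : StrongDual 𝕜 (StrongDual 𝕜 (V 𝕜))) - Lam δ‖ * ‖(bb γ : StrongDual 𝕜 (V 𝕜))‖ := h2
    _ ≤ ‖(Lam γ : StrongDual 𝕜 (StrongDual 𝕜 (V 𝕜))) - Lam δ‖ * 1 :=
        mul_le_mul_of_nonneg_left (bb_norm_le γ) (norm_nonneg _)
    _ = _ := mul_one _

theorem not_sep : ¬ TopologicalSpace.SeparableSpace (StrongDual 𝕜 (StrongDual 𝕜 (V 𝕜))) := by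
  intro hsep
  have h1 : (Set.univ : Set (ℕ → Bool)).Countable := by
    apply Set.PairwiseDisjoint.countable_of_isOpen
      (s := fun γ : ℕ → Bool => Metric.ball (Lam γ : StrongDual 𝕜 (StrongDual 𝕜 (V 𝕜))) (1 / 2))
    · intro γ _ δ _ hne
      apply Metric.ball_disjoint_ball
      have h := Lam_dist (𝕜 := 𝕜) hne
      have e : dist (Lam γ : StrongDual 𝕜 (StrongDual 𝕜 (V 𝕜))) (Lam δ)
        = ‖(Lam γ : StrongDual 𝕜 (StrongDual 𝕜 (V 𝕜))) - Lam δ‖ :=
        dist_eq_norm (Lam γ : StrongDual 𝕜 (StrongDual 𝕜 (V 𝕜))) (Lam δ)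
      linarith
    · intro γ _
      exact Metric.isOpen_ball
    · intro γ _
      exact ⟨Lam γ, Metric.mem_ball_self (by norm_num)⟩
  have h2 : Countable (ℕ → Bool) := Set.countable_univ_iff.1 h1
  have h3 : ¬ Countable (ℕ → Bool) := by
    intro hc
    obtain ⟨F, hF⟩ := exists_surjective_nat (ℕ → Bool)
    obtain ⟨k, hk⟩ := hF (fun n => !(F n n))
    have := congrFun hk k
    simp at this
  exact h3 h2

end Pool.Agent.H585R4.JT
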