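import Mathlib

set_option autoImplicit false
open Filter Topology Finset
open scoped ENNReal

namespace Pool.Agent.H585R4.JT

/-- Nodes of the dyadic tree: lists of booleans; the ancestors of a node are its suffixes. -/
abbrev Nd := List Bool

/-- The node `t` lies on the descending path `p = (a, b]`. -/
def Inn (t : Nd) (p : Nd × Nd) : Prop := p.1 <:+ t ∧ t ≠ p.1 ∧ t <:+ p.2

/-- Admissible finite families of pairwise disjoint descending paths. -/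
def Adm (F : Finset (Nd × Nd)) : Prop :=
  (∀ p ∈ F, p.1 <:+ p.2) ∧ ∀ p ∈ F, ∀ q ∈ F, p ≠ q → ∀ t, ¬ (Inn t p ∧ Inn t q)

/-- The type of admissible families. -/
abbrev Fam := {F : Finset (Nd × Nd) // Adm F}

theorem adm_single (a b : Nd) (h : a <:+ b) : Adm {(a, b)} := by
  refine ⟨?_, ?_⟩
  · intro p hp
    rw [Finset.mem_singleton] at hp
    subst hp
    exact h
  · intro p hp q hq hne
    rw [Finset.mem_singleton] at hp hq
    exact absurd (hp.trans hq.symm) hne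

/-- The one-path family from the root to `t`. -/
def famS (t : Nd) : Fam := ⟨{([], t)}, adm_single [] t (List.nil_suffix)⟩

variable (𝕜 : Type) [RCLike 𝕜]

/-- The ambient space. -/
noncomputable abbrev Amb := lp (fun F : Fam => PiLp 2 (fun _ : F.1 => 𝕜)) ∞

/-- evaluation on the ambient space -/
noncomputable def evA (t : Nd) : Amb 𝕜 →L[𝕜] 𝕜 :=
  (PiLp.proj 2 (fun _ : (famS t).1 => 𝕜) ⟨([], t), Finset.mem_singleton_self _⟩).comp
    (lp.evalCLM 𝕜 (fun F : Fam => PiLp 2 (fun _ : F.1 => 𝕜)) ∞ (famS t))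

theorem lesq {a b : ℝ} (h : a ^ 2 ≤ b ^ 2) (hb : 0 ≤ b) : a ≤ b := by
  by_contra hc
  push Not at hc
  nlinarith

/-- The James tree space (as a closed subspace of the ambient space). -/
noncomputable def VS : Submodule 𝕜 (Amb 𝕜) where
  carrier := {Φ | ∀ (F : Fam) (p : F.1), (Φ F) p = evA 𝕜 p.1.2 Φ - evA 𝕜 p.1.1 Φ}
  add_mem' := by
    intro a b ha hb F p
    have h1 := ha F p
    have h2 := hb F p
    rw [map_add, map_add]
    have h3 : ((a + b : Amb 𝕜) F) p = (a F) p + (b F) p := rfl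
    rw [h3, h1, h2]
    ring
  zero_mem' := by
    intro F p
    rw [map_zero, map_zero, sub_zero]
    rfl
  smul_mem' := by
    intro c a ha F p
    have h1 := ha F p
    rw [map_smul, map_smul]
    have h3 : ((c • a : Amb 𝕜) F) p = c • (a F) p := rfl
    rw [h3, h1, smul_sub]

/-- The James tree space. -/
def V : Type := VS 𝕜

noncomputable instance : NormedAddCommGroup (V 𝕜) := inferInstanceAs (NormedAddCommGroup (VS 𝕜))
noncomputable instance : NormedSpace 𝕜 (V 𝕜) := inferInstanceAs (NormedSpace 𝕜 (VS 𝕜))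

theorem isClosed_VS : IsClosed (VS 𝕜 : Set (Amb 𝕜)) := by
  have : (VS 𝕜 : Set (Amb 𝕜)) = ⋂ (F : Fam) (p : F.1),
      {Φ : Amb 𝕜 | ((PiLp.proj 2 (fun _ : F.1 => 𝕜) p).comp
        (lp.evalCLM 𝕜 (fun F : Fam => PiLp 2 (fun _ : F.1 => 𝕜)) ∞ F)) Φ
        = evA 𝕜 p.1.2 Φ - evA 𝕜 p.1.1 Φ} := by
    ext Φ
    simp only [Set.mem_iInter, Set.mem_ofPred_eq]
    rfl
  rw [this]
  refine isClosed_iInter fun F => isClosed_iInter fun p => ?_
  refine isClosed_eq ?_ ?_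
  · exact ((PiLp.proj 2 (fun _ : F.1 => 𝕜) p).comp
      (lp.evalCLM 𝕜 (fun F : Fam => PiLp 2 (fun _ : F.1 => 𝕜)) ∞ F)).continuous
  · exact (evA 𝕜 p.1.2).continuous.sub (evA 𝕜 p.1.1).continuous

instance : CompleteSpace (V 𝕜) := (isClosed_VS 𝕜).completeSpace_coe

/-- the inclusion into the ambient space -/
noncomputable def inc : V 𝕜 →L[𝕜] Amb 𝕜 := (VS 𝕜).subtypeL

variable {𝕜}

/-- The value of an element of the space at a node. -/
noncomputable def ev (t : Nd) : V 𝕜 →L[𝕜] 𝕜 := (evA 𝕜 t).comp (inc 𝕜)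

theorem coord (x : V 𝕜) (F : Fam) (p : F.1) : ((inc 𝕜 x) F) p = ev p.1.2 x - ev p.1.1 x := x.2 F p

theorem norm_inc (x : V 𝕜) : ‖inc 𝕜 x‖ = ‖x‖ := rfl

@[simp] theorem ev_nil (x : V 𝕜) : ev ([] : Nd) x = 0 := by
  have h := coord x (famS []) ⟨([], []), Finset.mem_singleton_self _⟩
  rw [sub_self] at h
  exact h

theorem ext_ev {x y : V 𝕜} (h : ∀ t, ev t x = ev t y) : x = y := by
  have hinj : Function.Injective (inc 𝕜) := Subtype.val_injective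
  apply hinj
  apply lp.ext
  funext F
  apply PiLp.ext
  intro p
  rw [coord, coord, h, h]

theorem fam_le (x : V 𝕜) (F : Finset (Nd × Nd)) (hF : Adm F) :
    ∑ p ∈ F, ‖ev p.2 x - ev p.1 x‖ ^ 2 ≤ ‖x‖ ^ 2 := by
  have h1 : ‖(inc 𝕜 x) ⟨F, hF⟩‖ ≤ ‖inc 𝕜 x‖ := lp.norm_apply_le_norm (by simp) _ _
  rw [norm_inc] at h1
  have h2 : ‖(inc 𝕜 x) ⟨F, hF⟩‖ ^ 2 = ∑ p ∈ F, ‖ev p.2 x - ev p.1 x‖ ^ 2 := by
    rw [PiLp.norm_sq_eq_of_L2]
    have : ∀ p : F, ‖((inc 𝕜 x) ⟨F, hF⟩) p‖ ^ 2 = ‖ev p.1.2 x - ev p.1.1 x‖ ^ 2 := by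
      intro p
      rw [coord x ⟨F, hF⟩ p]
    rw [Finset.sum_congr rfl (fun p _ => this p)]
    exact Finset.sum_coe_sort F (fun p => ‖ev p.2 x - ev p.1 x‖ ^ 2)
  rw [← h2]
  exact pow_le_pow_left₀ (norm_nonneg _) h1 2

theorem norm_le {x : V 𝕜} {C : ℝ} (hC : 0 ≤ C)
    (h : ∀ F : Finset (Nd × Nd), Adm F → ∑ p ∈ F, ‖ev p.2 x - ev p.1 x‖ ^ 2 ≤ C ^ 2) : ‖x‖ ≤ C := by
  rw [← norm_inc]
  refine lp.norm_le_of_forall_le hC fun F => ?_
  have h2 : ‖(inc 𝕜 x) F‖ ^ 2 = ∑ p ∈ F.1, ‖ev p.2 x - ev p.1 x‖ ^ 2 := by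
    rw [PiLp.norm_sq_eq_of_L2]
    have : ∀ p : F.1, ‖((inc 𝕜 x) F) p‖ ^ 2 = ‖ev p.1.2 x - ev p.1.1 x‖ ^ 2 := by
      intro p
      rw [coord x F p]
    rw [Finset.sum_congr rfl (fun p _ => this p)]
    exact Finset.sum_coe_sort F.1 (fun p => ‖ev p.2 x - ev p.1 x‖ ^ 2)
  have h3 := h F.1 F.2
  rw [← h2] at h3
  exact lesq h3 hC

/-- Building an element of the space from a function on the nodes. -/
theorem exists_mk (f : Nd → 𝕜) (h0 : f [] = 0) {C : ℝ} (hC : 0 ≤ C)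
    (h : ∀ F : Finset (Nd × Nd), Adm F → ∑ p ∈ F, ‖f p.2 - f p.1‖ ^ 2 ≤ C ^ 2) :
    ∃ x : V 𝕜, (∀ t, ev t x = f t) ∧ ‖x‖ ≤ C := by
  let Φ : ∀ F : Fam, PiLp 2 (fun _ : F.1 => 𝕜) := fun F => WithLp.toLp 2 (fun p => f p.1.2 - f p.1.1)
  have hn : ∀ F : Fam, ‖Φ F‖ ≤ C := by
    intro F
    have h2 : ‖Φ F‖ ^ 2 = ∑ p ∈ F.1, ‖f p.2 - f p.1‖ ^ 2 := by
      rw [PiLp.norm_sq_eq_of_L2]
      exact Finset.sum_coe_sort F.1 (fun p => ‖f p.2 - f p.1‖ ^ 2)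
    have h3 := h F.1 F.2
    rw [← h2] at h3
    exact lesq h3 hC
  have hm : Memℓp Φ ∞ := memℓp_infty ⟨C, by rintro _ ⟨F, rfl⟩; exact hn F⟩
  let Ψ : Amb 𝕜 := ⟨Φ, hm⟩
  have he : ∀ t, evA 𝕜 t Ψ = f t := by
    intro t
    show f t - f [] = f t
    rw [h0, sub_zero]
  have hV : Ψ ∈ VS 𝕜 := by
    intro F p
    rw [he, he]
  let x : V 𝕜 := (⟨Ψ, hV⟩ : VS 𝕜)
  refine ⟨x, fun t => he t, ?_⟩
  have h4 : ‖x‖ = ‖Ψ‖ := rfl
  rw [h4]
  exact lp.norm_le_of_forall_le hC hn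

theorem trivial_of_disj {a b : Nd} (hab : a <:+ b) (h : ∀ t, ¬ Inn t (a, b)) : a = b := by
  by_contra hne
  exact h b ⟨hab, fun h => hne h.symm, List.suffix_refl b⟩

/-- The basic inequality for indexed families of pairwise disjoint paths. -/
theorem sum_le {ι : Type*} (x : V 𝕜) (S : Finset ι) (P : ι → Nd × Nd)
    (hP : ∀ i ∈ S, (P i).1 <:+ (P i).2)
    (hd : ∀ i ∈ S, ∀ j ∈ S, i ≠ j → ∀ t, ¬ (Inn t (P i) ∧ Inn t (P j))) :
    ∑ i ∈ S, ‖ev (P i).2 x - ev (P i).1 x‖ ^ 2 ≤ ‖x‖ ^ 2 := by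
  classical
  set S' := S.filter (fun i => (P i).1 ≠ (P i).2) with hS'
  have h1 : ∑ i ∈ S, ‖ev (P i).2 x - ev (P i).1 x‖ ^ 2 = ∑ i ∈ S', ‖ev (P i).2 x - ev (P i).1 x‖ ^ 2 := by
    symm
    apply Finset.sum_subset (Finset.filter_subset _ _)
    intro i hi hni
    have : (P i).1 = (P i).2 := by
      by_contra hne
      exact hni (Finset.mem_filter.2 ⟨hi, hne⟩)
    rw [this, sub_self, norm_zero]
    norm_num
  have hinj : Set.InjOn P S' := by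
    intro i hi j hj hij
    by_contra hne
    have hi' := Finset.mem_filter.1 hi
    have hj' := Finset.mem_filter.1 hj
    refine hd i hi'.1 j hj'.1 hne (P i).2 ⟨⟨hP i hi'.1, fun h => hi'.2 h.symm, List.suffix_refl _⟩, ?_⟩
    rw [← hij]
    exact ⟨hP i hi'.1, fun h => hi'.2 h.symm, List.suffix_refl _⟩
  have h2 : ∑ i ∈ S', ‖ev (P i).2 x - ev (P i).1 x‖ ^ 2
      = ∑ p ∈ S'.image P, ‖ev p.2 x - ev p.1 x‖ ^ 2 := by
    rw [Finset.sum_image (fun i hi j hj h => hinj hi hj h)]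
  rw [h1, h2]
  apply fam_le
  constructor
  · intro p hp
    obtain ⟨i, hi, rfl⟩ := Finset.mem_image.1 hp
    exact hP i (Finset.mem_filter.1 hi).1
  · intro p hp q hq hne t
    obtain ⟨i, hi, rfl⟩ := Finset.mem_image.1 hp
    obtain ⟨j, hj, rfl⟩ := Finset.mem_image.1 hq
    exact hd i (Finset.mem_filter.1 hi).1 j (Finset.mem_filter.1 hj).1 (fun h => hne (by rw [h])) t

theorem path_le (x : V 𝕜) {a b : Nd} (h : a <:+ b) : ‖ev b x - ev a x‖ ≤ ‖x‖ := by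
  have := fam_le x {(a, b)} (adm_single a b h)
  rw [Finset.sum_singleton] at this
  exact lesq this (norm_nonneg _)

theorem ev_le (x : V 𝕜) (t : Nd) : ‖ev t x‖ ≤ ‖x‖ := by
  have := path_le x (List.nil_suffix (l := t))
  rwa [ev_nil, sub_zero] at this

/-- The bounded operator induced by a linear transformation of functions on nodes. -/
theorem exists_op (Θ : (Nd → 𝕜) →ₗ[𝕜] (Nd → 𝕜)) (h0 : ∀ f : Nd → 𝕜, f [] = 0 → Θ f [] = 0)
    {C : ℝ} (hC : 0 ≤ C)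
    (h : ∀ (x : V 𝕜) (F : Finset (Nd × Nd)), Adm F →
      ∑ p ∈ F, ‖Θ (fun t => ev t x) p.2 - Θ (fun t => ev t x) p.1‖ ^ 2 ≤ (C * ‖x‖) ^ 2) :
    ∃ T : V 𝕜 →L[𝕜] V 𝕜, (∀ x t, ev t (T x) = Θ (fun s => ev s x) t) ∧ ∀ x, ‖T x‖ ≤ C * ‖x‖ := by
  have hx : ∀ x : V 𝕜, ∃ y : V 𝕜, (∀ t, ev t y = Θ (fun s => ev s x) t) ∧ ‖y‖ ≤ C * ‖x‖ := by
    intro x
    exact exists_mk _ (h0 _ (ev_nil x)) (by positivity) (h x)
  choose T hT1 hT2 using hx
  let L : V 𝕜 →ₗ[𝕜] V 𝕜 :=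
    { toFun := T
      map_add' := by
        intro x y
        apply ext_ev
        intro t
        rw [map_add, hT1, hT1, hT1]
        have : (fun s => ev s (x + y)) = (fun s => ev s x) + (fun s => ev (𝕜 := 𝕜) s y) := by
          funext s
          simp
        rw [this, map_add]
        rfl
      map_smul' := by
        intro c x
        apply ext_ev
        intro t
        rw [RingHom.id_apply, map_smul, hT1, hT1]
        have : (fun s => ev s (c • x)) = c • (fun s => ev (𝕜 := 𝕜) s x) := by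
          funext s
          simp
        rw [this, map_smul]
        rfl }
  exact ⟨L.mkContinuous C hT2, fun x t => hT1 x t, fun x => hT2 x⟩

end Pool.Agent.H585R4.JT
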