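import Pool.Agent.H585R4.JT.Ops

set_option autoImplicit false
open Filter Topology Finset
open scoped ENNReal

namespace Pool.Agent.H585R4.JT

/-- the node of depth `n` on the branch `γ` -/
def bn (γ : ℕ → Bool) : ℕ → Nd
  | 0 => []
  | n + 1 => γ n :: bn γ n

/-- Primary Banach spaces. -/
def IsPrimary (𝕜 X : Type) [RCLike 𝕜] [NormedAddCommGroup X] [NormedSpace 𝕜 X] : Prop :=
  ¬ FiniteDimensional 𝕜 X ∧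
  ∀ Y Z : Submodule 𝕜 X, IsClosed (Y : Set X) → IsClosed (Z : Set X) → IsCompl Y Z →
    Nonempty (Y ≃L[𝕜] X) ∨ Nonempty (Z ≃L[𝕜] X)

/-- Task 585-C1: concentration on one branch. -/
def TaskC1 (𝕜 : Type) [RCLike 𝕜] : Prop :=
  ∀ (f : V 𝕜 →L[𝕜] 𝕜) (γ : ℕ → Bool),
    (∀ ε > 0, ∀ N : ℕ, ∃ n, N ≤ n ∧ ‖f (ee (bn γ n))‖ ≤ ε) →
    ∀ ε > 0, ∃ n, ∀ x : V 𝕜, ‖f (RR (bn γ n) x)‖ ≤ ε * ‖x‖

/-- Task 585-C2: no diffuse mass. -/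
def TaskC2 (𝕜 : Type) [RCLike 𝕜] : Prop :=
  ∀ f : V 𝕜 →L[𝕜] 𝕜,
    (∀ γ : ℕ → Bool, ∀ ε > 0, ∃ n, ∀ x : V 𝕜, ‖f (RR (bn γ n) x)‖ ≤ ε * ‖x‖) →
    ∀ ε > 0, ∃ n, ∀ x : V 𝕜, ‖f (QQ n x)‖ ≤ ε * ‖x‖

/-- Task 585-D: the `ℓ₂`-sum of countably many copies of the space is complemented in it. -/
def TaskD (𝕜 : Type) [RCLike 𝕜] : Prop :=
  ∃ (J : lp (fun _ : ℕ => V 𝕜) 2 →L[𝕜] V 𝕜) (Q : V 𝕜 →L[𝕜] lp (fun _ : ℕ => V 𝕜) 2), ∀ u, Q (J u) = u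

/-- Task 585-E: the bidual of the space is not primary (given C1 and C2). -/
def TaskE (𝕜 : Type) [RCLike 𝕜] : Prop :=
  TaskC1 𝕜 → TaskC2 𝕜 → ¬ IsPrimary 𝕜 (StrongDual 𝕜 (StrongDual 𝕜 (V 𝕜)))

/-- Task 585-F (helper585): the factorization property. -/
def TaskF (𝕜 : Type) [RCLike 𝕜] : Prop :=
  ∀ T : V 𝕜 →L[𝕜] V 𝕜, (∃ A C : V 𝕜 →L[𝕜] V 𝕜, ∀ x, C (T (A x)) = x) ∨
    (∃ A C : V 𝕜 →L[𝕜] V 𝕜, ∀ x, C (A x - T (A x)) = x)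

end Pool.Agent.H585R4.JT
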